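import Mathlib

/-!
# Counting tuples in which every entry has a partner
-/

namespace Pool.Agent.Q59.DT

open Finset

section Ore

variable {ι : Type*}

/-- small dominating sets -/
theorem ore (J : Finset ι) (P : ι → Prop) (r : ι → ι → Prop) (hr : ∀ i j, r i j → r j i)
    (h : ∀ i ∈ J, P i ∨ ∃ j ∈ J, j ≠ i ∧ r i j) :
    ∃ D ⊆ J, 2 * D.card ≤ J.card ∧ ∀ i ∈ J, i ∉ D → P i ∨ ∃ j ∈ D, r i j := by
  classical
  obtain ⟨S, hS⟩ : ∃ S : Finset (Finset ι), ∀ D, D ∈ S ↔
      (D ⊆ J ∧ ∀ i ∈ J, i ∉ D → P i ∨ ∃ j ∈ D, r i j) :=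
    ⟨J.powerset.filter (fun D => ∀ i ∈ J, i ∉ D → P i ∨ ∃ j ∈ D, r i j), fun D => by
      simp only [mem_filter, mem_powerset]⟩
  have hne : S.Nonempty := ⟨J, (hS J).mpr ⟨Subset.rfl, fun i hi hi' => absurd hi hi'⟩⟩
  obtain ⟨D, hD, hmin⟩ := exists_min_image S card hne
  obtain ⟨hDJ, hdom⟩ := (hS D).mp hD
  by_cases hc : 2 * D.card ≤ J.card
  · exact ⟨D, hDJ, hc, hdom⟩
  · refine ⟨J \ D, sdiff_subset, ?_, fun i hi hi' => ?_⟩
    · have := card_sdiff_add_card_eq_card hDJ
      omega
    · have hiD : i ∈ D := by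
        by_contra h0
        exact hi' (mem_sdiff.mpr ⟨hi, h0⟩)
      by_contra hcon
      push Not at hcon
      obtain ⟨h1, h2⟩ := hcon
      have h3 : D.erase i ∈ S := by
        refine (hS _).mpr ⟨(erase_subset _ _).trans hDJ, fun k hk hk' => ?_⟩
        by_cases hki : k = i
        · subst hki
          rcases h k hk with h4 | ⟨j, hj, hji, hrj⟩
          · exact absurd h4 h1
          · refine Or.inr ⟨j, mem_erase.mpr ⟨hji, ?_⟩, hrj⟩
            by_contra h5
            exact h2 j (mem_sdiff.mpr ⟨hj, h5⟩) hrj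
        · have hkD : k ∉ D := fun h0 => hk' (mem_erase.mpr ⟨hki, h0⟩)
          rcases hdom k hk hkD with h4 | ⟨j, hj, hrj⟩
          · exact Or.inl h4
          · refine Or.inr ⟨j, mem_erase.mpr ⟨?_, hj⟩, hrj⟩
            rintro rfl
            exact h2 k (mem_sdiff.mpr ⟨hk, hkD⟩) (hr _ _ hrj)
      have h4 := hmin _ h3
      rw [card_erase_of_mem hiD] at h4
      have h5 : 0 < D.card := card_pos.mpr ⟨i, hiD⟩
      omega

end Ore

section Zm

variable {m : ℕ} [NeZero m]

/-- a relation with small coefficients -/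
def Lk (H : ℕ) (a b : ZMod m) : Prop := ∃ x y : ℕ, 0 < x ∧ x ≤ H ∧ 0 < y ∧ y ≤ H ∧
  ((x : ZMod m) * a = (y : ZMod m) * b ∨ (x : ZMod m) * a = -((y : ZMod m) * b))

omit [NeZero m] in
lemma Lk.symm {H : ℕ} {a b : ZMod m} (h : Lk H a b) : Lk H b a := by
  obtain ⟨x, y, hx, hxH, hy, hyH, h⟩ := h
  refine ⟨y, x, hy, hyH, hx, hxH, ?_⟩
  rcases h with h | h
  · exact Or.inl h.symm
  · right; rw [h, neg_neg]

lemma card_killed_le {n : ℕ} (hn : 0 < n) [DecidablePred fun b : ZMod m => (n : ZMod m) * b = 0] :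
    (univ.filter fun b : ZMod m => (n : ZMod m) * b = 0).card ≤ n := by
  classical
  have h := IsAddCyclic.card_nsmul_eq_zero_le (α := ZMod m) hn
  refine le_trans (card_le_card fun b hb => ?_) h
  rw [mem_filter] at hb ⊢
  exact ⟨mem_univ _, by rw [nsmul_eq_mul]; exact hb.2⟩

lemma card_eq_le {n : ℕ} (hn : 0 < n) (c : ZMod m)
    [DecidablePred fun b : ZMod m => (n : ZMod m) * b = c] :
    (univ.filter fun b : ZMod m => (n : ZMod m) * b = c).card ≤ n := by
  classical
  rcases (univ.filter fun b : ZMod m => (n : ZMod m) * b = c).eq_empty_or_nonempty with h | ⟨b0, hb0⟩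
  · rw [h, card_empty]; exact Nat.zero_le _
  · refine le_trans ?_ (card_killed_le (m := m) hn)
    refine card_le_card_of_injOn (fun b => b - b0) (fun b hb => ?_) (fun b _ b' _ h => ?_)
    · rw [mem_coe, mem_filter] at hb ⊢
      rw [mem_filter] at hb0
      refine ⟨mem_univ _, ?_⟩
      rw [mul_sub, hb.2, hb0.2, sub_self]
    · exact sub_left_injective h

lemma card_Lk_le (H : ℕ) (a : ZMod m) [DecidablePred fun b : ZMod m => Lk H b a] :
    (univ.filter fun b : ZMod m => Lk H b a).card ≤ H * (H * (2 * H)) := by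
  classical
  have h1 : (univ.filter fun b : ZMod m => Lk H b a) ⊆
      (Icc 1 H).biUnion fun x => (Icc 1 H).biUnion fun y =>
        (univ.filter fun b : ZMod m => (x : ZMod m) * b = (y : ZMod m) * a) ∪
          (univ.filter fun b : ZMod m => (x : ZMod m) * b = -((y : ZMod m) * a)) := by
    intro b hb
    obtain ⟨x, y, hx, hxH, hy, hyH, h⟩ := (mem_filter.mp hb).2
    refine mem_biUnion.mpr ⟨x, mem_Icc.mpr ⟨hx, hxH⟩, mem_biUnion.mpr ⟨y, mem_Icc.mpr ⟨hy, hyH⟩, ?_⟩⟩
    rw [mem_union, mem_filter, mem_filter]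
    rcases h with h | h
    · exact Or.inl ⟨mem_univ _, h⟩
    · exact Or.inr ⟨mem_univ _, h⟩
  refine (card_le_card h1).trans ?_
  refine (card_biUnion_le_card_mul _ _ (H * (2 * H)) fun x hx => ?_).trans (by simp)
  refine (card_biUnion_le_card_mul _ _ (2 * H) fun y _ => ?_).trans (by simp)
  obtain ⟨hx1, hx2⟩ := mem_Icc.mp hx
  refine (card_union_le _ _).trans ?_
  have h2 := card_eq_le (m := m) (n := x) hx1 ((y : ZMod m) * a)
  have h3 := card_eq_le (m := m) (n := x) hx1 (-((y : ZMod m) * a))
  omega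

variable {ι : Type*} [Fintype ι] [DecidableEq ι]

/-- the tuples in which the entries outside of a small set have bounded order or a partner -/
def Dom (B H K : ℕ) (s : ι → ZMod m) : Prop :=
  ∃ D : Finset ι, D.card ≤ K ∧ ∀ i, i ∉ D → (B : ZMod m) * s i = 0 ∨ ∃ j ∈ D, Lk H (s i) (s j)

/-- **Counting.** -/
theorem card_Dom_le {B H : ℕ} (hB : 0 < B) (K : ℕ)
    [DecidablePred fun s : ι → ZMod m => Dom B H K s] :
    (univ.filter fun s : ι → ZMod m => Dom B H K s).card ≤
      2 ^ Fintype.card ι * (B + Fintype.card ι * (H * (H * (2 * H)))) ^ Fintype.card ι * m ^ K := by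
  classical
  set C := B + Fintype.card ι * (H * (H * (2 * H))) with hC
  have hC1 : 1 ≤ C := by omega
  have hm : 1 ≤ m := NeZero.pos m
  set S : Finset ι → (ι → ZMod m) → Finset (ZMod m) := fun D g =>
    univ.filter fun b => (B : ZMod m) * b = 0 ∨ ∃ j ∈ D, Lk H b (g j) with hS
  have hScard : ∀ D g, (S D g).card ≤ C := by
    intro D g
    have h1 : S D g ⊆ (univ.filter fun b : ZMod m => (B : ZMod m) * b = 0) ∪
        D.biUnion fun j => univ.filter fun b : ZMod m => Lk H b (g j) := by
      intro b hb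
      rw [mem_union, mem_filter, mem_biUnion]
      rcases (mem_filter.mp hb).2 with h | ⟨j, hj, h⟩
      · exact Or.inl ⟨mem_univ _, h⟩
      · exact Or.inr ⟨j, hj, mem_filter.mpr ⟨mem_univ _, h⟩⟩
    refine (card_le_card h1).trans ((card_union_le _ _).trans (add_le_add (card_killed_le hB) ?_))
    refine (card_biUnion_le_card_mul _ _ _ fun j _ => card_Lk_le H (g j)).trans ?_
    exact Nat.mul_le_mul_right _ (card_le_univ D)
  have hsub : (univ.filter fun s : ι → ZMod m => Dom B H K s) ⊆
      ((univ : Finset ι).powerset.filter fun D => D.card ≤ K).biUnion fun D =>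
        (Fintype.piFinset fun i => if i ∈ D then (univ : Finset (ZMod m)) else {0}).biUnion fun g =>
          Fintype.piFinset fun i => if i ∈ D then {g i} else S D g := by
    intro s hs
    obtain ⟨D, hD, h⟩ := (mem_filter.mp hs).2
    refine mem_biUnion.mpr ⟨D, mem_filter.mpr ⟨mem_powerset.mpr (subset_univ _), hD⟩,
      mem_biUnion.mpr ⟨fun i => if i ∈ D then s i else 0, ?_, ?_⟩⟩
    · rw [Fintype.mem_piFinset]
      intro i
      by_cases hi : i ∈ D
      · simp [hi]
      · simp [hi]
    · rw [Fintype.mem_piFinset]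
      intro i
      by_cases hi : i ∈ D
      · simp [hi]
      · simp only [hi, if_false]
        refine mem_filter.mpr ⟨mem_univ _, ?_⟩
        rcases h i hi with h1 | ⟨j, hj, h1⟩
        · exact Or.inl h1
        · refine Or.inr ⟨j, hj, ?_⟩
          change Lk H (s i) (if j ∈ D then s j else 0)
          rw [if_pos hj]; exact h1
  refine (card_le_card hsub).trans ?_
  have hD1 : ∀ D ∈ ((univ : Finset ι).powerset.filter fun D => D.card ≤ K),
      ((Fintype.piFinset fun i => if i ∈ D then (univ : Finset (ZMod m)) else {0}).biUnion fun g =>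
          Fintype.piFinset fun i => if i ∈ D then {g i} else S D g).card ≤
        C ^ Fintype.card ι * m ^ K := by
    intro D hD
    have hDK := (mem_filter.mp hD).2
    refine (card_biUnion_le_card_mul _ _ (C ^ Fintype.card ι) fun g _ => ?_).trans ?_
    · rw [Fintype.card_piFinset]
      calc ∏ i, (if i ∈ D then ({g i} : Finset (ZMod m)) else S D g).card ≤ ∏ _i : ι, C := by
            refine prod_le_prod' fun i _ => ?_
            split_ifs
            · rw [card_singleton]; exact hC1
            · exact hScard D g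
        _ = C ^ Fintype.card ι := by rw [prod_const, card_univ]
    · rw [mul_comm]
      refine Nat.mul_le_mul_left _ ?_
      rw [Fintype.card_piFinset]
      calc ∏ i, (if i ∈ D then (univ : Finset (ZMod m)) else {0}).card
          = ∏ i, (if i ∈ D then m else 1) := by
            refine prod_congr rfl fun i _ => ?_
            split_ifs
            · rw [card_univ, ZMod.card]
            · rw [card_singleton]
        _ = m ^ D.card := by
            rw [prod_ite, prod_const, prod_const_one, mul_one, filter_mem_eq_inter, univ_inter]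
        _ ≤ m ^ K := Nat.pow_le_pow_right hm hDK
  refine (card_biUnion_le_card_mul _ _ _ hD1).trans ?_
  rw [mul_assoc]
  refine Nat.mul_le_mul_right _ ?_
  refine (card_filter_le _ _).trans ?_
  rw [card_powerset, card_univ]

end Zm

end Pool.Agent.Q59.DT
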