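import Pool.Agent.Q59.FS.Main

/-!
# A function concentrated at one whose sums over the cosets of given subgroups vanish
-/

namespace Pool.Agent.Q59.DT

open Finset Pool.Agent.Q59.FS

section Grp

variable {G : Type*} [CommGroup G] [Finite G]

/-- subtraction of the mean over the other elements of the coset -/
noncomputable def op (K : Subgroup G) (f : G → ℚ) : G → ℚ := by
  classical
  exact fun u => f u - (∑ κ ∈ (KF K).erase 1, f (u * κ)) / ((Nat.card K : ℚ) - 1)

/-- the function -/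
noncomputable def Wf : List (Subgroup G) → G → ℚ
  | [] => by
    classical
    exact fun u => if u = 1 then 1 else 0
  | K :: P => op K (Wf P)

lemma sum_mul_left_KF {K : Subgroup G} {κ₀ : G} (hκ : κ₀ ∈ K) (f : G → ℚ) (u : G) :
    ∑ κ ∈ KF K, f (u * κ * κ₀) = ∑ κ ∈ KF K, f (u * κ) := by
  refine sum_bij (fun κ _ => κ * κ₀) (fun κ h => ?_) (fun κ _ κ' _ h => mul_right_cancel h)
    (fun κ h => ?_) (fun κ _ => by rw [mul_assoc])
  · exact mem_KF.mpr (K.mul_mem (mem_KF.mp h) hκ)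
  · exact ⟨κ * κ₀⁻¹, mem_KF.mpr (K.mul_mem (mem_KF.mp h) (K.inv_mem hκ)), by simp⟩

lemma card_erase_KF (K : Subgroup G) [DecidableEq G] :
    (((KF K).erase 1).card : ℚ) = (Nat.card K : ℚ) - 1 := by
  have h1 : (1 : G) ∈ KF K := mem_KF.mpr K.one_mem
  have h2 := card_erase_add_one h1
  rw [card_KF] at h2
  rw [← h2]
  push_cast
  ring

lemma sum_op_self {K : Subgroup G} (hK : 2 ≤ Nat.card K) (f : G → ℚ) (u : G) :
    ∑ κ ∈ KF K, op K f (u * κ) = 0 := by
  classical
  unfold op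
  have hne : (Nat.card K : ℚ) - 1 ≠ 0 := by
    have : (2 : ℚ) ≤ Nat.card K := by exact_mod_cast hK
    linarith
  rw [sum_sub_distrib, ← sum_div, sum_comm]
  have h1 : ∀ κ₀ ∈ (KF K).erase 1, ∑ κ ∈ KF K, f (u * κ * κ₀) = ∑ κ ∈ KF K, f (u * κ) :=
    fun κ₀ h => sum_mul_left_KF (mem_KF.mp (mem_of_mem_erase h)) f u
  rw [sum_congr rfl h1, sum_const, nsmul_eq_mul, card_erase_KF, mul_div_cancel_left₀ _ hne, sub_self]

lemma sum_op_other {K K' : Subgroup G} {f : G → ℚ} (hf : ∀ u, ∑ κ ∈ KF K', f (u * κ) = 0) (u : G) :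
    ∑ κ ∈ KF K', op K f (u * κ) = 0 := by
  classical
  unfold op
  rw [sum_sub_distrib, ← sum_div, hf, sum_comm]
  have h1 : ∀ κ₀ ∈ (KF K).erase 1, ∑ κ ∈ KF K', f (u * κ * κ₀) = 0 := fun κ₀ _ => by
    rw [← hf (u * κ₀)]
    exact sum_congr rfl fun κ _ => by rw [mul_right_comm]
  rw [sum_eq_zero h1, zero_div, sub_zero]

/-- the sums over the cosets vanish -/
lemma sum_Wf {P : List (Subgroup G)} (hP : ∀ K ∈ P, 2 ≤ Nat.card K) :
    ∀ K ∈ P, ∀ u, ∑ κ ∈ KF K, Wf P (u * κ) = 0 := by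
  induction P with
  | nil => exact fun K hK => absurd hK List.not_mem_nil
  | cons K₀ P ih =>
    intro K hK u
    rcases List.mem_cons.mp hK with rfl | hK
    · exact sum_op_self (hP _ (List.mem_cons_self ..)) _ u
    · exact sum_op_other (ih (fun K hK => hP K (List.mem_cons_of_mem _ hK)) K hK) u

/-- the values -/
lemma op_cases {K : Subgroup G} {P : Subgroup G} (hKP : K ⊓ P = ⊥) {f : G → ℚ}
    (hf : ∀ u, f u ≠ 0 → u ∈ P) {u : G} (hu : op K f u ≠ 0) :
    (f u ≠ 0 ∧ op K f u = f u) ∨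
      ∃ κ ∈ K, κ ≠ 1 ∧ f (u * κ) ≠ 0 ∧ op K f u = - (f (u * κ) / ((Nat.card K : ℚ) - 1)) := by
  classical
  have huniq : ∀ κ ∈ K, ∀ κ' ∈ K, f (u * κ) ≠ 0 → f (u * κ') ≠ 0 → κ = κ' := by
    intro κ hκ κ' hκ' h1 h2
    have h3 : κ⁻¹ * κ' ∈ K ⊓ P := by
      refine ⟨K.mul_mem (K.inv_mem hκ) hκ', ?_⟩
      have h4 := P.mul_mem (P.inv_mem (hf _ h1)) (hf _ h2)
      have h5 : (u * κ)⁻¹ * (u * κ') = κ⁻¹ * κ' := by group
      rwa [h5] at h4
    rw [hKP, Subgroup.mem_bot] at h3
    exact (inv_mul_eq_one.mp h3)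
  by_cases h0 : f u = 0
  · right
    have h1 : op K f u = - ((∑ κ ∈ (KF K).erase 1, f (u * κ)) / ((Nat.card K : ℚ) - 1)) := by
      unfold op
      rw [h0, zero_sub]
    have h2 : ∑ κ ∈ (KF K).erase 1, f (u * κ) ≠ 0 := by
      intro h
      apply hu
      rw [h1, h, zero_div, neg_zero]
    obtain ⟨κ, hκ, hκ'⟩ := exists_ne_zero_of_sum_ne_zero h2
    refine ⟨κ, mem_KF.mp (mem_of_mem_erase hκ), ne_of_mem_erase hκ, hκ', ?_⟩
    rw [h1]
    congr 2
    refine sum_eq_single_of_mem κ hκ fun κ' h' hne => ?_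
    by_contra h3
    exact hne (huniq κ' (mem_KF.mp (mem_of_mem_erase h')) κ (mem_KF.mp (mem_of_mem_erase hκ)) h3 hκ')
  · left
    refine ⟨h0, ?_⟩
    unfold op
    have h1 : ∑ κ ∈ (KF K).erase 1, f (u * κ) = 0 := by
      refine sum_eq_zero fun κ h => ?_
      by_contra h3
      exact ne_of_mem_erase h (huniq κ (mem_KF.mp (mem_of_mem_erase h)) 1 K.one_mem h3
        (by rwa [mul_one]))
    rw [h1, zero_div, sub_zero]

lemma Wf_mem {P : List (Subgroup G)} (hP : Ind P) : ∀ u, Wf P u ≠ 0 → u ∈ jn P := by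
  classical
  induction P with
  | nil =>
    intro u hu
    unfold Wf at hu
    by_contra h
    apply hu
    rw [if_neg]
    intro h1
    exact h (h1 ▸ Subgroup.one_mem _)
  | cons K P ih =>
    intro u hu
    rcases op_cases hP.1 (ih hP.2) hu with ⟨h1, -⟩ | ⟨κ, hκ, -, h1, -⟩
    · exact (le_sup_right : jn P ≤ K ⊔ jn P) (ih hP.2 u h1)
    · have h2 := (le_sup_right : jn P ≤ K ⊔ jn P) (ih hP.2 _ h1)
      have h3 := (K ⊔ jn P).mul_mem h2 ((le_sup_left : K ≤ K ⊔ jn P) (K.inv_mem hκ))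
      rw [mul_inv_cancel_right] at h3
      exact h3

lemma Wf_one {P : List (Subgroup G)} (hP : Ind P) : Wf P 1 = 1 := by
  classical
  induction P with
  | nil => simp [Wf]
  | cons K P ih =>
    have h1 : Wf P 1 = 1 := ih hP.2
    have h0 : Wf P 1 ≠ 0 := by rw [h1]; exact one_ne_zero
    have h2 : Wf (K :: P) 1 = Wf P 1 := by
      change op K (Wf P) 1 = Wf P 1
      unfold op
      have h3 : ∑ κ ∈ (KF K).erase 1, Wf P (1 * κ) = 0 := by
        refine sum_eq_zero fun κ h => ?_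
        by_contra h3
        rw [one_mul] at h3
        have h4 : κ ∈ K ⊓ jn P := ⟨mem_KF.mp (mem_of_mem_erase h), Wf_mem hP.2 κ h3⟩
        rw [hP.1, Subgroup.mem_bot] at h4
        exact ne_of_mem_erase h h4
      rw [h3, zero_div, sub_zero]
    rw [h2, h1]

lemma abs_Wf {P : List (Subgroup G)} (hP : Ind P) (hP2 : ∀ K ∈ P, 2 ≤ Nat.card K) :
    ∀ u, |Wf P u| ≤ 1 := by
  classical
  induction P with
  | nil =>
    intro u
    unfold Wf
    split_ifs <;> simp
  | cons K P ih =>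
    have ih' := ih hP.2 fun K hK => hP2 K (List.mem_cons_of_mem _ hK)
    intro u
    by_cases hu : op K (Wf P) u = 0
    · change |op K (Wf P) u| ≤ 1
      rw [hu, abs_zero]; exact zero_le_one
    · rcases op_cases hP.1 (Wf_mem hP.2) hu with ⟨-, h1⟩ | ⟨κ, -, -, -, h1⟩
      · change |op K (Wf P) u| ≤ 1
        rw [h1]; exact ih' u
      · change |op K (Wf P) u| ≤ 1
        have h2 : (2 : ℚ) ≤ Nat.card K := by exact_mod_cast hP2 K (List.mem_cons_self ..)
        have h3 : (1 : ℚ) ≤ (Nat.card K : ℚ) - 1 := by linarith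
        rw [h1, abs_neg, abs_div, abs_of_pos (show (0 : ℚ) < (Nat.card K : ℚ) - 1 by linarith),
          div_le_one (by linarith)]
        exact (ih' _).trans h3

end Grp

section Units

variable {d : ℕ} [NeZero d]

omit [NeZero d] in
lemma KL_mono {a b : ℕ} (h : a ∣ b) : KL d a ≤ KL d b := by
  obtain ⟨c, rfl⟩ := h
  exact KL_le_mul d a c

/-- the values outside of the subgroup of the small primes are small -/
lemma Wf_small {Λ : ℕ} (hΛ : 0 < Λ) (hd : d % 4 ≠ 2) {L : List ℕ} (hL : ∀ p ∈ L, p.Prime ∧ p ∣ d)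
    (hnd : L.Nodup) : ∀ u, Wf (L.map (KL d)) u ≠ 0 →
      |Wf (L.map (KL d)) u| ≤ 1 / Λ ∨ u ∈ KL d ((L.filter (fun p => p ≤ Λ + 2)).prod) := by
  classical
  induction L with
  | nil =>
    intro u hu
    right
    have : u = 1 := by
      by_contra h
      apply hu
      simp only [List.map_nil, Wf]
      rw [if_neg h]
    rw [this]
    exact Subgroup.one_mem _
  | cons q L ih =>
    obtain ⟨hqL, hnd'⟩ := List.nodup_cons.mp hnd
    have hL' : ∀ p ∈ L, p.Prime ∧ p ∣ d := fun p hp => hL p (List.mem_cons_of_mem _ hp)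
    have ih' := ih hL' hnd'
    obtain ⟨hq, hqd⟩ := hL q (List.mem_cons_self ..)
    have hind := ind_KL d (L := q :: L) (fun p hp => (hL p hp).1) hnd
    rw [List.map_cons] at hind
    have hcard : ∀ K ∈ L.map (KL d), 2 ≤ Nat.card K := by
      intro K hK
      obtain ⟨p, hp, rfl⟩ := List.mem_map.mp hK
      have h1 := card_KL_ge hd (hL' p hp).1 (hL' p hp).2
      unfold nn at h1
      have h2 := (hL' p hp).1.two_le
      split_ifs at h1 <;> omega
    have hcq : nn q ≤ Nat.card (KL d q) := card_KL_ge hd hq hqd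
    have hdvd : (L.filter (fun p => p ≤ Λ + 2)).prod ∣ ((q :: L).filter (fun p => p ≤ Λ + 2)).prod := by
      rw [List.filter_cons]
      split_ifs
      · rw [List.prod_cons]; exact Dvd.intro_left _ rfl
      · exact dvd_rfl
    intro u hu
    change op (KL d q) (Wf (L.map (KL d))) u ≠ 0 at hu
    change |op (KL d q) (Wf (L.map (KL d))) u| ≤ 1 / Λ ∨ _
    rcases op_cases hind.1 (Wf_mem hind.2) hu with ⟨h0, h1⟩ | ⟨κ, hκ, hκ1, h0, h1⟩
    · rw [h1]
      rcases ih' u h0 with h2 | h2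
      · exact Or.inl h2
      · exact Or.inr (KL_mono hdvd h2)
    · rw [h1, abs_neg, abs_div]
      have hc2 : (2 : ℚ) ≤ Nat.card (KL d q) := by
        have h3 : 2 ≤ Nat.card (KL d q) := by
          unfold nn at hcq
          have h2 := hq.two_le
          by_cases h4 : q = 2
          · rw [if_pos h4] at hcq; exact hcq
          · rw [if_neg h4] at hcq; omega
        exact_mod_cast h3
      have hpos : (0 : ℚ) < (Nat.card (KL d q) : ℚ) - 1 := by linarith
      have hΛ' : (0 : ℚ) < Λ := by exact_mod_cast hΛ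
      rw [abs_of_pos hpos]
      by_cases hql : q ≤ Λ + 2
      · rcases ih' _ h0 with h2 | h2
        · left
          rw [div_le_iff₀ hpos]
          calc |Wf (L.map (KL d)) (u * κ)| ≤ 1 / Λ * 1 := by rw [mul_one]; exact h2
            _ ≤ 1 / Λ * ((Nat.card (KL d q) : ℚ) - 1) :=
              mul_le_mul_of_nonneg_left (by linarith) (by positivity)
        · right
          have h3 : u * κ ∈ KL d ((q :: L).filter (fun p => p ≤ Λ + 2)).prod := KL_mono hdvd h2
          have h4 : κ ∈ KL d ((q :: L).filter (fun p => p ≤ Λ + 2)).prod := by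
            refine KL_mono ?_ hκ
            rw [List.filter_cons, if_pos (by simpa using hql), List.prod_cons]
            exact Dvd.intro _ rfl
          have h5 := Subgroup.mul_mem _ h3 (Subgroup.inv_mem _ h4)
          rwa [mul_inv_cancel_right] at h5
      · left
        have h3 : (Λ : ℚ) ≤ (Nat.card (KL d q) : ℚ) - 1 := by
          have h4 : Λ + 1 ≤ Nat.card (KL d q) := by
            unfold nn at hcq
            by_cases h5 : q = 2
            · exfalso; omega
            · rw [if_neg h5] at hcq; omega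
          have h5 : ((Λ + 1 : ℕ) : ℚ) ≤ Nat.card (KL d q) := by exact_mod_cast h4
          push_cast at h5
          linarith
        calc |Wf (L.map (KL d)) (u * κ)| / ((Nat.card (KL d q) : ℚ) - 1)
            ≤ 1 / ((Nat.card (KL d q) : ℚ) - 1) :=
              div_le_div_of_nonneg_right (abs_Wf hind.2 hcard _) hpos.le
          _ ≤ 1 / Λ := div_le_div_of_nonneg_left zero_le_one hΛ' h3

end Units

end Pool.Agent.Q59.DT
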