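import Pool.Agent.Q59.DN.Ext
import Pool.Agent.Q59.DT.Wf

/-!
# Extension of odd distributions from one order with control of the values
-/

namespace Pool.Agent.Q59.DT

open Finset Pool.Agent.H916R2 Pool.Agent.Q59.FS
open Pool.Agent.Q59.DN (ext_dvd_val)

section Ext

variable {m : ℕ} [NeZero m] {M D : ℕ} {φ : ZMod m → ℚ}

/-- extension, second case -/
lemma ext_not_dvd_val (h : PD M D φ) {ℓ : ℕ} (hℓ : ℓ.Prime) (hdvd : ¬ ℓ ∣ M) :
    ∃ e0 : ℕ, ℓ ∣ e0 ∧ (∀ b : ZMod m, (M : ZMod m) * b = 0 → (e0 : ZMod m) * b = b) ∧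
    ∃ φ' : ZMod m → ℚ, PD (M * ℓ) D φ' ∧ (∀ a, (M : ZMod m) * a = 0 → φ' a = φ a) ∧
      ∀ a, ¬ (M : ZMod m) * a = 0 → ((M * ℓ : ℕ) : ZMod m) * a = 0 →
        φ' a = (φ ((ℓ : ZMod m) * ((e0 : ZMod m) * a)) - φ ((e0 : ZMod m) * a)) / (ℓ - 1) := by
  classical
  have hM0 : M ≠ 0 := by rintro rfl; simp at hdvd
  have hcopM : M.Coprime ℓ := Nat.coprime_comm.mp ((Nat.Prime.coprime_iff_not_dvd hℓ).mpr hdvd)
  obtain ⟨e0, he1, he2⟩ : ∃ e0 : ℕ, e0 ≡ 1 [MOD M] ∧ e0 ≡ 0 [MOD ℓ] :=
    ⟨_, (Nat.chineseRemainder hcopM 1 0).2⟩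
  have he2' : ℓ ∣ e0 := (Nat.modEq_zero_iff_dvd).mp he2
  have hmul : ∀ b : ZMod m, (M : ZMod m) * b = 0 → (e0 : ZMod m) * b = b := by
    intro b hb
    have h1 : (M : ℤ) ∣ (1 : ℤ) - e0 := by
      have := (Nat.modEq_iff_dvd).mp he1
      exact_mod_cast this
    obtain ⟨k, hk⟩ := h1
    have h2 : (1 : ZMod m) - (e0 : ZMod m) = (M : ZMod m) * (k : ZMod m) := by
      have := congrArg (fun z : ℤ => (z : ZMod m)) hk
      push_cast at this
      exact this
    linear_combination -b * h2 - (k : ZMod m) * hb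
  set φ' : ZMod m → ℚ := fun a => if (M : ZMod m) * a = 0 then φ a else
    if ((M * ℓ : ℕ) : ZMod m) * a = 0 then
      (φ ((ℓ : ZMod m) * ((e0 : ZMod m) * a)) - φ ((e0 : ZMod m) * a)) / (ℓ - 1) else 0 with hφ'
  have v1 : ∀ a, (M : ZMod m) * a = 0 → φ' a = φ a := fun a ha => by
    simp only [hφ']; rw [if_pos ha]
  have v2 : ∀ a, ¬ (M : ZMod m) * a = 0 → ((M * ℓ : ℕ) : ZMod m) * a = 0 →
      φ' a = (φ ((ℓ : ZMod m) * ((e0 : ZMod m) * a)) - φ ((e0 : ZMod m) * a)) / (ℓ - 1) :=
    fun a h1 h2 => by simp only [hφ']; rw [if_neg h1, if_pos h2]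
  have v3 : ∀ a, ¬ ((M * ℓ : ℕ) : ZMod m) * a = 0 → φ' a = 0 := fun a h2 => by
    have h1 : ¬ (M : ZMod m) * a = 0 := fun h0 => h2 (by
      push_cast
      linear_combination (ℓ : ZMod m) * h0)
    simp only [hφ']; rw [if_neg h1, if_neg h2]
  have hℓ1 : (ℓ : ℚ) - 1 ≠ 0 := by
    have : (1 : ℚ) < ℓ := by exact_mod_cast hℓ.one_lt
    linarith
  refine ⟨e0, he2', hmul, φ', ⟨?_, ?_, ?_, ?_⟩, v1, v2⟩
  · intro a
    by_cases h1 : (M : ZMod m) * a = 0
    · rw [v1 a h1, v1 (-a) (by rw [mul_neg, h1, neg_zero]), h.neg]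
    · have h1' : ¬ (M : ZMod m) * (-a) = 0 := by rwa [mul_neg, neg_eq_zero]
      by_cases h2 : ((M * ℓ : ℕ) : ZMod m) * a = 0
      · rw [v2 a h1 h2, v2 (-a) h1' (by rw [mul_neg, h2, neg_zero]), mul_neg, mul_neg, h.neg,
          h.neg]
        ring
      · rw [v3 a h2, v3 (-a) (by rwa [mul_neg, neg_eq_zero]), neg_zero]
  · intro a ha
    by_contra hcon
    exact ha (v3 a hcon)
  · intro a ha
    by_cases h1 : (M : ZMod m) * a = 0
    · rw [v1 a h1] at ha
      exact h.ord a ha
    · by_cases h2 : ((M * ℓ : ℕ) : ZMod m) * a = 0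
      · rw [v2 a h1 h2] at ha
        by_cases h3 : φ ((e0 : ZMod m) * a) = 0
        · have h4 : φ ((ℓ : ZMod m) * ((e0 : ZMod m) * a)) ≠ 0 := by
            intro h0
            apply ha
            rw [h0, h3, sub_zero, zero_div]
          exact (h.ord _ h4).trans ((order_mul_dvd ℓ _).trans (order_mul_dvd e0 a))
        · exact (h.ord _ h3).trans (order_mul_dvd e0 a)
      · exact absurd (v3 a h2) ha
  · intro p e hp hpe hpM a ha
    have ha' : (M : ZMod m) * ((ℓ : ZMod m) * a) = 0 := by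
      have := ha
      push_cast at this
      linear_combination this
    have hea : (M : ZMod m) * ((e0 : ZMod m) * a) = 0 := by
      obtain ⟨k, hk⟩ := he2'
      rw [hk]
      push_cast
      linear_combination (k : ZMod m) * ha'
    by_cases hpl : p = ℓ
    · subst hpl
      -- the case of the new prime
      have hkill : (p : ZMod m) * ((e0 : ZMod m) * a - a) = 0 := by
        have := hmul _ ha'
        linear_combination this
      obtain ⟨j, hj, hj'⟩ := exists_mul_of_killed hpe hkill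
      have hj'' : (e0 : ZMod m) * a = a + (j : ZMod m) * (e : ZMod m) := by
        linear_combination hj'
      have he0e : (e0 : ZMod m) * (e : ZMod m) = 0 := dvd_mul_zero hpe he2'
      have h5 : ∀ i ∈ range p, i ≠ j → φ' (a + (i : ZMod m) * (e : ZMod m)) =
          (φ ((p : ZMod m) * ((e0 : ZMod m) * a)) - φ ((e0 : ZMod m) * a)) / (p - 1) := by
        intro i hi hij
        have hnz : ¬ (M : ZMod m) * (a + (i : ZMod m) * (e : ZMod m)) = 0 := by
          intro h0
          have h6 : (M : ZMod m) * ((i : ZMod m) * (e : ZMod m)) =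
              (M : ZMod m) * ((j : ZMod m) * (e : ZMod m)) := by
            have := hea
            rw [hj''] at this
            linear_combination h0 - this
          have h7 : ((M * i * e : ℕ) : ZMod m) = ((M * j * e : ℕ) : ZMod m) := by
            push_cast
            linear_combination h6
          rw [ZMod.natCast_eq_natCast_iff] at h7
          have he : 0 < e := Nat.pos_of_ne_zero (by
            rintro rfl; rw [mul_zero] at hpe; exact NeZero.ne m hpe.symm)
          have h8 : M * i ≡ M * j [MOD p] := by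
            have h9 : M * i * e ≡ M * j * e [MOD p * e] := by rw [hpe]; exact h7
            exact Nat.ModEq.mul_right_cancel' he.ne' h9
          have h9 := Nat.ModEq.cancel_left_of_coprime (Nat.coprime_comm.mp hcopM) h8
          have h10 : i % p = j % p := h9
          rw [Nat.mod_eq_of_lt (mem_range.mp hi), Nat.mod_eq_of_lt hj] at h10
          exact hij h10
        have hz : ((M * p : ℕ) : ZMod m) * (a + (i : ZMod m) * (e : ZMod m)) = 0 := by
          have h0 := mul_cast_zero hpe
          have := ha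
          push_cast at this ⊢
          linear_combination this + ((M : ZMod m) * i) * h0
        have e1 : (e0 : ZMod m) * (a + (i : ZMod m) * (e : ZMod m)) = (e0 : ZMod m) * a := by
          linear_combination (i : ZMod m) * he0e
        rw [v2 _ hnz hz, e1]
      have h6 : φ' (a + (j : ZMod m) * (e : ZMod m)) = φ ((e0 : ZMod m) * a) := by
        rw [← hj'']
        exact v1 _ hea
      rw [← add_sum_erase _ _ (mem_range.mpr hj), h6,
        sum_congr rfl (fun i hi => h5 i (mem_of_mem_erase hi) (ne_of_mem_erase hi)), sum_const,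
        card_erase_of_mem (mem_range.mpr hj), card_range, nsmul_eq_mul,
        Nat.cast_sub hp.one_lt.le, Nat.cast_one, mul_div_cancel₀ _ hℓ1, v1 _ ha']
      have e2 : (p : ZMod m) * ((e0 : ZMod m) * a) = (p : ZMod m) * a := by
        linear_combination hkill
      rw [e2]
      ring
    · -- an old prime
      have hpM' : p ∣ M := by
        rcases (Nat.Prime.dvd_mul hp).mp hpM with h0 | h0
        · exact h0
        · exact absurd ((Nat.prime_dvd_prime_iff_eq hp hℓ).mp h0) hpl
      have hMe : (M : ZMod m) * (e : ZMod m) = 0 := dvd_mul_zero hpe hpM'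
      have hshift : ∀ i : ℕ, (M : ZMod m) * (a + (i : ZMod m) * (e : ZMod m)) =
          (M : ZMod m) * a := by
        intro i
        linear_combination (i : ZMod m) * hMe
      by_cases h1 : (M : ZMod m) * a = 0
      · rw [v1 ((p : ZMod m) * a) (by linear_combination (p : ZMod m) * h1),
          ← h.dist p e hp hpe hpM' a h1]
        exact sum_congr rfl fun i _ => v1 _ (by rw [hshift, h1])
      · have hcop : ℓ.Coprime p := (Nat.coprime_primes hℓ hp).mpr (Ne.symm hpl)
        have he0e : (e0 : ZMod m) * (e : ZMod m) = e := hmul _ hMe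
        have ht : ∀ i ∈ range p, φ' (a + (i : ZMod m) * (e : ZMod m)) =
            (φ ((ℓ : ZMod m) * ((e0 : ZMod m) * a) + (ℓ : ZMod m) * ((i : ZMod m) * (e : ZMod m))) -
              φ ((e0 : ZMod m) * a + (i : ZMod m) * (e : ZMod m))) / (ℓ - 1) := by
          intro i _
          have h0 : ((M * ℓ : ℕ) : ZMod m) * (a + (i : ZMod m) * (e : ZMod m)) = 0 := by
            have := ha
            push_cast at this ⊢
            linear_combination this + ((i : ZMod m) * ℓ) * hMe
          rw [v2 _ (by rw [hshift]; exact h1) h0]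
          congr 3
          · linear_combination ((ℓ : ZMod m) * i) * he0e
          · linear_combination (i : ZMod m) * he0e
        have hMℓe : (M : ZMod m) * ((ℓ : ZMod m) * ((e0 : ZMod m) * a)) = 0 := by
          linear_combination (ℓ : ZMod m) * hea
        have h4 : ¬ (M : ZMod m) * ((p : ZMod m) * a) = 0 := by
          intro h0
          apply h1
          have hA : ((M * ℓ : ℕ) : ZMod m) * a = 0 := ha
          have hB : ((M * p : ℕ) : ZMod m) * a = 0 := by
            push_cast
            linear_combination h0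
          have := killed_gcd hA hB
          rwa [Nat.gcd_mul_left, hcop.gcd_eq_one, mul_one] at this
        rw [sum_congr rfl ht, ← sum_div, sum_sub_distrib,
          coset_sum_coprime φ hpe hcop, h.dist p e hp hpe hpM' _ hMℓe,
          h.dist p e hp hpe hpM' _ hea, v2 _ h4 (by
            have := ha
            push_cast at this ⊢
            linear_combination (p : ZMod m) * this)]
        congr 3
        · ring
        · ring


end Ext

section Beta

/-- the bound for the index `r` -/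
noncomputable def beta (r : ℕ) : ℚ := 2 ^ r.primeFactors.card / (Nat.totient r : ℚ)

lemma beta_pos {r : ℕ} (hr : 0 < r) : 0 < beta r := by
  unfold beta
  have : (0 : ℚ) < Nat.totient r := by exact_mod_cast Nat.totient_pos.mpr hr
  positivity

lemma beta_mul_dvd {r ℓ : ℕ} (hℓ : ℓ.Prime) (h : ℓ ∣ r) (hr : 0 < r) : beta (r * ℓ) = beta r / ℓ := by
  unfold beta
  have h1 : (r * ℓ).primeFactors = r.primeFactors := by
    rw [Nat.primeFactors_mul hr.ne' hℓ.ne_zero, hℓ.primeFactors, union_eq_left, singleton_subset_iff]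
    exact Nat.mem_primeFactors.mpr ⟨hℓ, h, hr.ne'⟩
  have h2 : Nat.totient (r * ℓ) = ℓ * Nat.totient r := by
    rw [mul_comm]; exact Nat.totient_mul_of_prime_of_dvd hℓ h
  have h3 : (0 : ℚ) < Nat.totient r := by exact_mod_cast Nat.totient_pos.mpr hr
  have h4 : (0 : ℚ) < ℓ := by exact_mod_cast hℓ.pos
  rw [h1, h2]
  push_cast
  field_simp

lemma beta_mul_not_dvd {r ℓ : ℕ} (hℓ : ℓ.Prime) (h : ¬ ℓ ∣ r) (hr : 0 < r) :
    beta (r * ℓ) = 2 * beta r / ((ℓ : ℚ) - 1) := by
  unfold beta
  have h1 : (r * ℓ).primeFactors.card = r.primeFactors.card + 1 := by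
    rw [Nat.primeFactors_mul hr.ne' hℓ.ne_zero, hℓ.primeFactors, card_union_of_disjoint, card_singleton]
    rw [disjoint_singleton_right]
    intro h2
    exact h (Nat.mem_primeFactors.mp h2).2.1
  have h2 : Nat.totient (r * ℓ) = (ℓ - 1) * Nat.totient r := by
    rw [mul_comm]; exact Nat.totient_mul_of_prime_of_not_dvd hℓ h
  have h3 : (0 : ℚ) < Nat.totient r := by exact_mod_cast Nat.totient_pos.mpr hr
  have h4 : (0 : ℚ) < (ℓ : ℚ) - 1 := by
    have : (1 : ℚ) < ℓ := by exact_mod_cast hℓ.one_lt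
    linarith
  rw [h1, h2]
  push_cast [Nat.cast_sub hℓ.one_lt.le]
  field_simp
  ring

lemma beta_ge {r ℓ : ℕ} (hℓ : ℓ.Prime) (hr : 0 < r) : beta r / ℓ ≤ beta (r * ℓ) := by
  by_cases h : ℓ ∣ r
  · rw [beta_mul_dvd hℓ h hr]
  · rw [beta_mul_not_dvd hℓ h hr]
    have h1 := beta_pos hr
    have h2 : (2 : ℚ) ≤ ℓ := by exact_mod_cast hℓ.two_le
    rw [div_le_div_iff₀ (by linarith) (by linarith)]
    nlinarith

lemma two_pow_le_odd (r : ℕ) : Odd r → 2 ^ r.primeFactors.card ≤ Nat.totient r := by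
  induction r using Nat.recOnPosPrimePosCoprime with
  | prime_pow p n hp hn =>
    intro h
    rw [Nat.primeFactors_pow p hn.ne', hp.primeFactors, card_singleton, pow_one,
      Nat.totient_prime_pow hp hn]
    have h1 : p ≠ 2 := by
      rintro rfl
      have := (Nat.odd_pow_iff hn.ne').mp h
      exact absurd this (by decide)
    have h2 := hp.two_le
    have h3 : 1 ≤ p ^ (n - 1) := Nat.one_le_pow _ _ hp.pos
    calc 2 = 1 * 2 := rfl
      _ ≤ p ^ (n - 1) * (p - 1) := Nat.mul_le_mul h3 (by omega)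
  | zero => intro h; exact absurd h (by decide)
  | one => intro _; simp
  | coprime a b ha hb hab iha ihb =>
    intro h
    obtain ⟨h1, h2⟩ := Nat.odd_mul.mp h
    rw [Nat.Coprime.primeFactors_mul hab, card_union_of_disjoint hab.disjoint_primeFactors, pow_add,
      Nat.totient_mul hab]
    exact Nat.mul_le_mul (iha h1) (ihb h2)

lemma split_prime {r p : ℕ} (hp : p.Prime) (hr : 0 < r) : ∃ w s : ℕ, ¬ p ∣ s ∧ 0 < s ∧ r = p ^ w * s ∧
    (0 < w → r.primeFactors.card = s.primeFactors.card + 1 ∧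
      Nat.totient r = p ^ (w - 1) * (p - 1) * Nat.totient s) := by
  obtain ⟨w, s, h1, h2⟩ := Nat.exists_eq_pow_mul_and_not_dvd hr.ne' p hp.ne_one
  have hs : 0 < s := Nat.pos_of_ne_zero (by rintro rfl; exact h1 (dvd_zero _))
  refine ⟨w, s, h1, hs, h2, fun hw => ?_⟩
  have hc : (p ^ w).Coprime s := Nat.Coprime.pow_left w ((Nat.Prime.coprime_iff_not_dvd hp).mpr h1)
  rw [h2, Nat.Coprime.primeFactors_mul hc, card_union_of_disjoint hc.disjoint_primeFactors,
    Nat.primeFactors_pow p hw.ne', hp.primeFactors, card_singleton, Nat.totient_mul hc,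
    Nat.totient_prime_pow hp hw]
  exact ⟨add_comm _ _, rfl⟩

lemma two_pow_le {r : ℕ} (hr : 0 < r) : 2 ^ r.primeFactors.card ≤ 2 * Nat.totient r := by
  obtain ⟨w, s, h1, hs, h2, h3⟩ := split_prime Nat.prime_two hr
  have hodd : Odd s := by
    rw [← Nat.not_even_iff_odd]
    intro h
    exact h1 h.two_dvd
  have h4 := two_pow_le_odd s hodd
  rcases Nat.eq_zero_or_pos w with rfl | hw
  · rw [pow_zero, one_mul] at h2
    rw [h2]; omega
  · obtain ⟨h5, h6⟩ := h3 hw
    rw [h5, h6, pow_succ]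
    have h7 : 1 ≤ 2 ^ (w - 1) := Nat.one_le_pow _ _ (by norm_num)
    calc 2 ^ s.primeFactors.card * 2 ≤ Nat.totient s * 2 := Nat.mul_le_mul_right 2 h4
      _ = 2 * (1 * (2 - 1) * Nat.totient s) := by ring
      _ ≤ 2 * (2 ^ (w - 1) * (2 - 1) * Nat.totient s) :=
        Nat.mul_le_mul_left 2 (Nat.mul_le_mul_right _ (Nat.mul_le_mul_right _ h7))

lemma pow_le_totient {r p k : ℕ} (hp : p.Prime) (hr : 0 < r) (hk : 0 < k) (h : p ^ k ∣ r) :
    2 ^ r.primeFactors.card * p ^ k ≤ 6 * Nat.totient r := by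
  obtain ⟨w, s, h1, hs, h2, h3⟩ := split_prime hp hr
  have hkw : k ≤ w := by
    rw [h2] at h
    have hc : (p ^ k).Coprime s := Nat.Coprime.pow_left k ((Nat.Prime.coprime_iff_not_dvd hp).mpr h1)
    exact (Nat.pow_dvd_pow_iff_le_right hp.one_lt).mp (hc.dvd_of_dvd_mul_right h)
  obtain ⟨h5, h6⟩ := h3 (by omega)
  rw [h5, h6]
  have h7 : p ^ k ≤ p ^ (w - 1) * p := by
    rw [← pow_succ]
    exact Nat.pow_le_pow_right hp.pos (by omega)
  have h8 : 2 ^ (s.primeFactors.card + 1) * p ≤ 6 * ((p - 1) * Nat.totient s) := by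
    rw [pow_succ]
    by_cases hp2 : p = 2
    · have hodd : Odd s := by
        rw [← Nat.not_even_iff_odd]
        intro h
        exact h1 (hp2 ▸ h.two_dvd)
      have h4 := two_pow_le_odd s hodd
      subst hp2
      have : (2 : ℕ) - 1 = 1 := rfl
      rw [this, one_mul]
      nlinarith
    · have h4 := two_pow_le hs
      have h9 : 3 ≤ p := by
        have := hp.two_le
        omega
      obtain ⟨j, rfl⟩ : ∃ j, p = j + 3 := ⟨p - 3, by omega⟩
      have h10 : j + 3 - 1 = j + 2 := rfl
      rw [h10]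
      calc 2 ^ s.primeFactors.card * 2 * (j + 3) ≤ 2 * Nat.totient s * 2 * (j + 3) :=
            Nat.mul_le_mul_right _ (Nat.mul_le_mul_right _ h4)
        _ = Nat.totient s * (4 * j + 12) := by ring
        _ ≤ Nat.totient s * (6 * j + 12) := Nat.mul_le_mul_left _ (by omega)
        _ = 6 * ((j + 2) * Nat.totient s) := by ring
  calc 2 ^ (s.primeFactors.card + 1) * p ^ k ≤ 2 ^ (s.primeFactors.card + 1) * (p ^ (w - 1) * p) :=
        Nat.mul_le_mul_left _ h7
    _ = p ^ (w - 1) * (2 ^ (s.primeFactors.card + 1) * p) := by ring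
    _ ≤ p ^ (w - 1) * (6 * ((p - 1) * Nat.totient s)) := Nat.mul_le_mul_left _ h8
    _ = 6 * (p ^ (w - 1) * (p - 1) * Nat.totient s) := by ring

/-- indices with a large bound are divisors of a fixed number -/
lemma dvd_of_beta {K r : ℕ} (hr : 0 < r) (h : 1 < (K : ℚ) * beta r) : r ∣ (6 * K).factorial := by
  rw [Nat.dvd_iff_prime_pow_dvd_dvd]
  intro p k hp hk
  rcases Nat.eq_zero_or_pos k with rfl | hk0
  · rw [pow_zero]; exact one_dvd _
  · apply Nat.dvd_factorial (pow_pos hp.pos k)
    by_contra hcon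
    push Not at hcon
    have h1 := pow_le_totient hp hr hk0 hk
    have h2 : (0 : ℚ) < Nat.totient r := by exact_mod_cast Nat.totient_pos.mpr hr
    unfold beta at h
    rw [← mul_div_assoc, one_lt_div h2] at h
    have h3 : Nat.totient r < K * 2 ^ r.primeFactors.card := by exact_mod_cast h
    have h4 : 2 ^ r.primeFactors.card * (6 * K) < 2 ^ r.primeFactors.card * p ^ k :=
      Nat.mul_lt_mul_of_pos_left hcon (pow_pos (by norm_num) _)
    have h5 : 6 * Nat.totient r < 6 * (K * 2 ^ r.primeFactors.card) := by omega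
    have h6 : 2 ^ r.primeFactors.card * (6 * K) = 6 * (K * 2 ^ r.primeFactors.card) := by ring
    omega

lemma beta_le_two {r : ℕ} (hr : 0 < r) : beta r ≤ 2 := by
  unfold beta
  have h2 : (0 : ℚ) < Nat.totient r := by exact_mod_cast Nat.totient_pos.mpr hr
  rw [div_le_iff₀ h2]
  exact_mod_cast two_pow_le hr

end Beta

end Pool.Agent.Q59.DT
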