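import Pool.Agent.Q59.DT.Partner
import Pool.Agent.Q59.DT.Count
import Pool.Agent.Q59.DN.Main
import Pool.Agent.Q59.PL.Odds

/-!
# Almost all Hodge characters are generated by surfaces and standard characters
-/

namespace Pool.Agent.Q59.DT

open Finset Pool.Agent.H916R2 Pool.Agent.Q59.FS
open Pool.Agent.Q59.DN (lev lev_pos splitting gen_B0)
open Pool.Agent.Q59.RL (B0 half_add_half)
open Pool.Agent.Y2.Cv (SurfaceOrCurveProduct)
open Pool.Agent.Q59.SX (sum_of_generated)

section Index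

lemma exists_map_eq {α β : Type*} (f : α → β) (u : Multiset α) (t : Multiset β)
    (h : t ≤ u.map f) : ∃ v ≤ u, v.map f = t := by
  obtain ⟨l, rfl⟩ := Quot.exists_rep u
  obtain ⟨l1, rfl⟩ := Quot.exists_rep t
  change (l1 : Multiset β) ≤ ((l : Multiset α).map f) at h
  change ∃ v ≤ (l : Multiset α), v.map f = (l1 : Multiset β)
  rw [Multiset.map_coe, Multiset.coe_le] at h
  obtain ⟨l2, hp, hs⟩ := h
  obtain ⟨l3, h3, rfl⟩ := List.sublist_map_iff.mp hs
  exact ⟨l3, Multiset.coe_le.mpr h3.subperm, by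
    rw [Multiset.map_coe]; exact Multiset.coe_eq_coe.mpr hp⟩

lemma exists_index {ι β : Type*} [Fintype ι] [DecidableEq ι] (f : ι → β) {s0 s1 : Multiset β}
    (h : (univ : Finset ι).val.map f = s0 + s1) :
    ∃ I : Finset ι, I.val.map f = s0 ∧ (Iᶜ).val.map f = s1 := by
  obtain ⟨v, hv, hv'⟩ := exists_map_eq f univ.val s0 (h ▸ Multiset.le_add_right s0 s1)
  set I : Finset ι := ⟨v, Multiset.nodup_of_le hv univ.nodup⟩ with hI
  refine ⟨I, hv', ?_⟩
  have h1 : (univ : Finset ι).val = I.val + (Iᶜ).val := by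
    have h2 : (univ : Finset ι) = I.disjUnion Iᶜ disjoint_compl_right := by
      rw [disjUnion_eq_union, union_compl]
    conv_lhs => rw [h2]
    rfl
  rw [h1, Multiset.map_add] at h
  have h3 : I.val.map f = s0 := hv'
  rw [h3] at h
  exact add_left_cancel h

end Index

section AL

variable {m : ℕ}

/-- the lines known to be algebraic -/
def AL (m : ℕ) (s : Multiset (ZMod m)) : Prop :=
  (Even m → Generated m (SurfaceOrCurveProduct m) s) ∧
    (Odd m → Generated (2 * m) (SurfaceOrCurveProduct (2 * m))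
      (s.map fun a => ((2 * a.val : ℕ) : ZMod (2 * m))))

lemma gen_mono {base base' : Multiset (ZMod m) → Prop} (h : ∀ s, base s → base' s)
    {s : Multiset (ZMod m)} (hg : Generated m base s) : Generated m base' s := by
  induction hg with
  | ofBase s hs => exact Generated.ofBase s (h s hs)
  | pair a ha => exact Generated.pair a ha
  | standard p hp hp2 hpm a ha => exact Generated.standard p hp hp2 hpm a ha
  | standardTwo hm a ha => exact Generated.standardTwo hm a ha
  | join s t _ _ ihs iht => exact Generated.join s t ihs iht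
  | cancel a s _ ih => exact Generated.cancel a s ih

lemma AL.add {s t : Multiset (ZMod m)} (hs : AL m s) (ht : AL m t) : AL m (s + t) := by
  refine ⟨fun h => Generated.join _ _ (hs.1 h) (ht.1 h), fun h => ?_⟩
  rw [Multiset.map_add]
  exact Generated.join _ _ (hs.2 h) (ht.2 h)

variable [NeZero m]

lemma AL.of_gen (hm : 2 ≤ m) {t : Multiset (ZMod m)} (h : Generated m (B0 m) t) : AL m t := by
  refine ⟨fun _ => gen_mono (fun _ h => h.elim) h, fun _ => ?_⟩
  have : NeZero (2 * m) := ⟨Nat.mul_ne_zero two_ne_zero (NeZero.ne m)⟩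
  obtain ⟨h0, hev⟩ := h.good (fun _ h => h.elim)
  refine gen_mono (fun _ h => h.elim) (gen_B0 (m := 2 * m) (by omega) ?_ ?_ ?_)
  · intro h1
    obtain ⟨a, ha, ha'⟩ := Multiset.mem_map.mp h1
    have h2 : (iota 2 a : ZMod (2 * m)) = 0 := ha'
    rw [iota_eq_zero rfl h2] at ha
    exact h0 ha
  · rw [Multiset.card_map]; exact hev
  · rw [Multiset.map_map]
    exact sum_of_generated ((cQ_oddDist (m := 2 * m) (base := B0 (2 * m))).comp_iota (k := 2) rfl)
      (fun _ h => h.elim) h

end AL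

section Dom

variable {m : ℕ} [NeZero m]

omit [NeZero m] in
lemma sum_index {ι : Type*} (I : Finset ι) (s : ι → ZMod m) (φ : ZMod m → ℚ) :
    ((I.val.map s).map φ).sum = ∑ i ∈ I, φ (s i) := by
  rw [Multiset.map_map]
  rfl

lemma IsHodge.sum_rat {s : Multiset (ZMod m)} (hs : IsHodge m s) {φ : ZMod m → ℚ}
    (hφ : OddDist φ) : (s.map φ).sum = 0 := by
  have h := rel_rat hs.rel hφ
  rw [← h, ← sum_count]
  refine sum_congr rfl fun a _ => ?_
  rw [zsmul_eq_mul]

/-- a relation on a set of indices: few free entries -/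
lemma exists_D {ι : Type*} {n : ℕ} (hn : 0 < n) (J : Finset ι) (hJ : J.card ≤ n)
    (s : ι → ZMod m) (hrel : ∀ φ : ZMod m → ℚ, OddDist φ → ∑ i ∈ J, φ (s i) = 0) :
    ∃ D ⊆ J, 2 * D.card ≤ J.card ∧ ∀ i ∈ J, i ∉ D →
      ((12 * QQ n : ℕ) : ZMod m) * s i = 0 ∨ ∃ j ∈ D, Lk (HH n) (s i) (s j) := by
  obtain ⟨D, h1, h2, h3⟩ := ore J (fun i => ((12 * QQ n : ℕ) : ZMod m) * s i = 0)
    (fun i j => Lk (HH n) (s i) (s j)) (fun _ _ h => h.symm) (fun i hi => by
      rcases partner hn J hJ s hrel hi with h | ⟨j, hj, hji, x, y, hx, hxH, hy, hyH, h⟩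
      · left
        rwa [addOrderOf_dvd_iff_nsmul_eq_zero, nsmul_eq_mul] at h
      · exact Or.inr ⟨j, hj, hji, Lk.symm ⟨x, y, hx, hxH, hy, hyH, h⟩⟩)
  exact ⟨D, h1, h2, h3⟩

/-- the bound for the orders -/
def BB (k : ℕ) : ℕ := 12 * QQ (2 * k) * lev (2 * k)

lemma BB_pos (k : ℕ) : 0 < BB k := by
  unfold BB QQ
  have h1 := lev_pos (2 * k)
  have h2 := Nat.factorial_pos (16 * (2 * k) + 2)
  positivity

/-- all Hodge characters -/
lemma dom_of_hodge {k : ℕ} {s : Fin (2 * k) → ZMod m} (hs : IsHodge m ((univ : Finset (Fin (2 * k))).val.map s)) :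
    Dom (BB k) (HH (2 * k)) k s := by
  rcases Nat.eq_zero_or_pos k with rfl | hk
  · exact ⟨∅, by simp, fun i => absurd i.2 (by omega)⟩
  · obtain ⟨D, -, h2, h3⟩ := exists_D (n := 2 * k) (by omega) univ (by simp) s (fun φ hφ => by
      rw [← sum_index]; exact IsHodge.sum_rat hs hφ)
    refine ⟨D, ?_, fun i hi => ?_⟩
    · rw [card_univ, Fintype.card_fin] at h2
      omega
    · rcases h3 i (mem_univ i) hi with h | h
      · left
        unfold BB
        rw [Nat.cast_mul, mul_right_comm, h, zero_mul]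
      · exact Or.inr h

/-- the other characters -/
theorem dom_of_nonalg {k T : ℕ} (hm : 2 ≤ m) (hT : 0 < T)
    (hsmall : ∀ t : Multiset (ZMod m), IsHodge m t → t ≠ 0 → Multiset.card t < 2 * T → AL m t)
    {s : Fin (2 * k) → ZMod m} (hs : IsHodge m ((univ : Finset (Fin (2 * k))).val.map s))
    (hna : ¬ AL m ((univ : Finset (Fin (2 * k))).val.map s)) :
    T ≤ k ∧ Dom (BB k) (HH (2 * k)) (k - T) s := by
  classical
  obtain ⟨s0, s1, h01, hkill, hcase⟩ := splitting (N := 2 * k) hm hs (by simp)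
  obtain ⟨I, hI0, hI1⟩ := exists_index s h01
  have hcard0 : Multiset.card s0 = I.card := by rw [← hI0, Multiset.card_map]; rfl
  -- the first part is long
  have hlong : 2 * T ≤ I.card + 1 := by
    by_contra hcon
    apply hna
    rw [h01]
    rcases hcase with ⟨h1, h2⟩ | ⟨h2m, h1, h2⟩
    · by_cases h0 : s0 = 0
      · rw [h0, zero_add]; exact AL.of_gen hm h2
      · exact (hsmall s0 h1 h0 (by omega)).add (AL.of_gen hm h2)
    · have hhh := half_add_half h2m
      have hneg : -((m / 2 : ℕ) : ZMod m) = ((m / 2 : ℕ) : ZMod m) :=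
        neg_eq_of_add_eq_zero_left hhh
      have h3 := (hsmall _ h1 (Multiset.cons_ne_zero) (by rw [Multiset.card_cons]; omega)).add
        (AL.of_gen hm h2)
      have heven : Even m := even_iff_two_dvd.mpr h2m
      refine ⟨fun he => ?_, fun ho => absurd heven (Nat.not_even_iff_odd.mpr ho)⟩
      apply Generated.cancel ((m / 2 : ℕ) : ZMod m)
      rw [hneg]
      have e1 : ((m / 2 : ℕ) : ZMod m) ::ₘ ((m / 2 : ℕ) : ZMod m) ::ₘ (s0 + s1) =
          ((m / 2 : ℕ) : ZMod m) ::ₘ s0 + ((m / 2 : ℕ) : ZMod m) ::ₘ s1 := by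
        rw [Multiset.add_cons, Multiset.cons_add]
      rw [e1]
      exact h3.1 he
  have hIk : I.card ≤ 2 * k := by
    have := card_le_univ I
    rwa [Fintype.card_fin] at this
  have hTk : T ≤ k := by omega
  refine ⟨hTk, ?_⟩
  -- the relation of the second part
  have hrel : ∀ φ : ZMod m → ℚ, OddDist φ → ∑ i ∈ Iᶜ, φ (s i) = 0 := by
    intro φ hφ
    have h1 : ∑ i, φ (s i) = 0 := by rw [← sum_index]; exact IsHodge.sum_rat hs hφ
    have h2 : ∑ i ∈ I, φ (s i) = 0 := by
      rw [← sum_index, hI0]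
      rcases hcase with ⟨h2, -⟩ | ⟨h2m, h2, -⟩
      · exact IsHodge.sum_rat h2 hφ
      · have h3 := IsHodge.sum_rat h2 hφ
        rwa [Multiset.map_cons, Multiset.sum_cons, hφ.half _ (half_add_half h2m), zero_add] at h3
    rw [← sum_add_sum_compl I, h2, zero_add] at h1
    exact h1
  have hc : (Iᶜ).card = 2 * k - I.card := by rw [card_compl, Fintype.card_fin]
  obtain ⟨D, -, h2, h3⟩ := exists_D (n := 2 * k) (by omega) Iᶜ (by omega) s hrel
  refine ⟨D, by omega, fun i hi => ?_⟩
  by_cases hiI : i ∈ I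
  · left
    have h4 : s i ∈ s0 := by
      rw [← hI0]
      exact Multiset.mem_map.mpr ⟨i, hiI, rfl⟩
    unfold BB
    rw [Nat.cast_mul, mul_assoc, hkill _ h4, mul_zero]
  · rcases h3 i (mem_compl.mpr hiI) hi with h | h
    · left
      unfold BB
      rw [Nat.cast_mul, mul_right_comm, h, zero_mul]
    · exact Or.inr h

end Dom

section Final

/-- the number of the Hodge characters (tuples) -/
noncomputable def hc (k m : ℕ) : ℕ :=
  Nat.card {s : Fin (2 * k) → ZMod m // IsHodge m ((univ : Finset (Fin (2 * k))).val.map s)}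

/-- the number of the Hodge characters (tuples) not known to be algebraic -/
noncomputable def oc (k m : ℕ) : ℕ :=
  Nat.card {s : Fin (2 * k) → ZMod m // IsHodge m ((univ : Finset (Fin (2 * k))).val.map s) ∧
    ¬ AL m ((univ : Finset (Fin (2 * k))).val.map s)}

/-- the constant -/
def CC (k : ℕ) : ℕ := 2 ^ (2 * k) *
  (BB k + (2 * k) * (HH (2 * k) * (HH (2 * k) * (2 * HH (2 * k))))) ^ (2 * k)

variable {m : ℕ} [NeZero m]

lemma card_le_of_dom {k K : ℕ} {P : (Fin (2 * k) → ZMod m) → Prop}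
    (h : ∀ s, P s → Dom (BB k) (HH (2 * k)) K s) :
    Nat.card {s : Fin (2 * k) → ZMod m // P s} ≤ CC k * m ^ K := by
  classical
  have h1 := card_Dom_le (m := m) (ι := Fin (2 * k)) (B := BB k) (H := HH (2 * k)) (BB_pos k) K
  rw [Fintype.card_fin] at h1
  refine le_trans ?_ h1
  rw [Nat.card_eq_fintype_card, Fintype.card_subtype]
  exact card_le_card fun s hs => mem_filter.mpr ⟨mem_univ _, h s (mem_filter.mp hs).2⟩

theorem hc_le (k : ℕ) : hc k m ≤ CC k * m ^ k := card_le_of_dom fun _ hs => dom_of_hodge hs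

theorem oc_le {k T : ℕ} (hm : 2 ≤ m) (hT : 0 < T)
    (hsmall : ∀ t : Multiset (ZMod m), IsHodge m t → t ≠ 0 → Multiset.card t < 2 * T → AL m t) :
    m ^ T * oc k m ≤ CC k * m ^ k := by
  by_cases hTk : T ≤ k
  · have h1 : oc k m ≤ CC k * m ^ (k - T) :=
      card_le_of_dom fun s hs => (dom_of_nonalg hm hT hsmall hs.1 hs.2).2
    calc m ^ T * oc k m ≤ m ^ T * (CC k * m ^ (k - T)) := Nat.mul_le_mul_left _ h1
      _ = CC k * m ^ k := by
        rw [mul_left_comm, ← pow_add, Nat.add_sub_cancel' hTk]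
  · have h1 : oc k m = 0 := by
      unfold oc
      rw [Nat.card_eq_zero]
      left
      exact ⟨fun s => hTk (dom_of_nonalg hm hT hsmall s.2.1 s.2.2).1⟩
    rw [h1, mul_zero]
    exact Nat.zero_le _

/-- the tuple of pairs -/
def pr (k : ℕ) (a : Fin k → ZMod m) : Fin (2 * k) → ZMod m := fun j =>
  if (finProdFinEquiv.symm j).1 = 0 then a (finProdFinEquiv.symm j).2
  else -a (finProdFinEquiv.symm j).2

lemma pr_hodge {k : ℕ} {a : Fin k → ZMod m} (ha : ∀ i, a i ≠ 0) :
    IsHodge m ((univ : Finset (Fin (2 * k))).val.map (pr k a)) := by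
  refine isHodge_of_saw ?_ ?_ fun t => ?_
  · intro h0
    obtain ⟨j, -, hj⟩ := Multiset.mem_map.mp h0
    unfold pr at hj
    split_ifs at hj
    · exact ha _ hj
    · exact ha _ (neg_eq_zero.mp hj)
  · rw [Multiset.card_map]
    change Even (univ : Finset (Fin (2 * k))).card
    rw [card_univ, Fintype.card_fin]
    exact even_two_mul k
  · rw [Multiset.map_map]
    change ∑ j, saw ((t : ZMod m) * pr k a j) = 0
    rw [← Equiv.sum_comp (finProdFinEquiv (m := 2) (n := k)), Fintype.sum_prod_type,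
      Fin.sum_univ_two, ← sum_add_distrib]
    refine sum_eq_zero fun i _ => ?_
    unfold pr
    simp only [Equiv.symm_apply_apply, if_true]
    rw [if_neg (by decide : ¬ (1 : Fin 2) = 0), mul_neg, saw_neg, add_neg_cancel]

theorem hc_ge (k : ℕ) : (m - 1) ^ k ≤ hc k m := by
  classical
  have h1 : Nat.card {a : Fin k → ZMod m // ∀ i, a i ≠ 0} = (m - 1) ^ k := by
    have e : {a : Fin k → ZMod m // ∀ i, a i ≠ 0} ≃ (Fin k → {x : ZMod m // x ≠ 0}) :=
      Equiv.subtypePiEquivPi (p := fun (_ : Fin k) (x : ZMod m) => x ≠ 0)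
    rw [Nat.card_congr e, Nat.card_fun, Nat.card_eq_fintype_card, Fintype.card_subtype_compl]
    simp
  rw [← h1]
  unfold hc
  refine Nat.card_le_card_of_injective (fun a => ⟨pr k a.1, pr_hodge a.2⟩) ?_
  intro a b h
  apply Subtype.ext
  funext i
  have h2 := congrFun (congrArg Subtype.val h) (finProdFinEquiv (0, i))
  simpa [pr] using h2

end Final

end Pool.Agent.Q59.DT
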