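import Pool.Agent.Q59.DT.Reach
import Pool.Agent.Q59.RL.Small

/-!
# The entries of a short relation have partners
-/

namespace Pool.Agent.Q59.DT

open Finset Pool.Agent.H916R2 Pool.Agent.Q59.FS

section W

variable {d : ℕ} [NeZero d]

/-- the list of the prime divisors -/
noncomputable def pl (d : ℕ) : List ℕ := d.primeFactors.toList

lemma mem_pl {p : ℕ} : p ∈ pl d ↔ p.Prime ∧ p ∣ d := by
  unfold pl
  rw [mem_toList, Nat.mem_primeFactors]
  exact ⟨fun h => ⟨h.1, h.2.1⟩, fun h => ⟨h.1, h.2, NeZero.ne d⟩⟩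

/-- the function `Wf` for all prime divisors -/
noncomputable def Wd (d : ℕ) [NeZero d] : (ZMod d)ˣ → ℚ := Wf ((pl d).map (KL d))

lemma ind_pl : Ind ((pl d).map (KL d)) :=
  ind_KL d (fun _ hp => (mem_pl.mp hp).1) (nodup_toList _)

lemma two_le_card (hd : d % 4 ≠ 2) : ∀ K ∈ (pl d).map (KL d), 2 ≤ Nat.card K := by
  intro K hK
  obtain ⟨p, hp, rfl⟩ := List.mem_map.mp hK
  have h1 := card_KL_ge hd (mem_pl.mp hp).1 (mem_pl.mp hp).2
  unfold nn at h1
  have h2 := (mem_pl.mp hp).1.two_le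
  split_ifs at h1 <;> omega

lemma Wd_one : Wd d 1 = 1 := Wf_one ind_pl

lemma abs_Wd (hd : d % 4 ≠ 2) (u : (ZMod d)ˣ) : |Wd d u| ≤ 1 := abs_Wf ind_pl (two_le_card hd) u

lemma sum_Wd (hd : d % 4 ≠ 2) {ℓ : ℕ} (hℓ : ℓ.Prime) (hℓd : ℓ ∣ d) (u : (ZMod d)ˣ) :
    ∑ κ ∈ KF (KL d ℓ), Wd d (u * κ) = 0 :=
  sum_Wf (two_le_card hd) _ (List.mem_map.mpr ⟨ℓ, mem_pl.mpr ⟨hℓ, hℓd⟩, rfl⟩) u

lemma Wd_small (hd : d % 4 ≠ 2) {Λ : ℕ} (hΛ : 0 < Λ) (u : (ZMod d)ˣ) :
    |Wd d u| ≤ 1 / Λ ∨ u ∈ KL d (Λ + 2).factorial := by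
  by_cases h : Wd d u = 0
  · left
    rw [h, abs_zero]
    positivity
  · rcases Wf_small hΛ hd (fun _ hp => mem_pl.mp hp) (nodup_toList _) u h with h1 | h1
    · exact Or.inl h1
    · right
      refine KL_mono ?_ h1
      have hnd : ((pl d).filter (fun p => p ≤ Λ + 2)).Nodup := (nodup_toList _).filter _
      have e : ((pl d).filter (fun p => p ≤ Λ + 2)).prod =
          ∏ p ∈ ((pl d).filter (fun p => p ≤ Λ + 2)).toFinset, p := by
        rw [List.prod_toFinset _ hnd, List.map_id']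
      rw [e]
      apply Finset.prod_primes_dvd
      · intro p hp
        rw [List.mem_toFinset, List.mem_filter] at hp
        exact (mem_pl.mp hp.1).1.prime
      · intro p hp
        rw [List.mem_toFinset, List.mem_filter] at hp
        exact Nat.dvd_factorial (mem_pl.mp hp.1).1.pos (by simpa using hp.2)

end W

section Core

variable {m : ℕ} [NeZero m]

omit [NeZero m] in
lemma nat_mul_iota {R d : ℕ} [NeZero d] (hR : R * d = m) (n : ℕ) (b : ZMod d) :
    (n : ZMod m) * iota R b = iota R ((n : ZMod d) * b) := by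
  have h := map_nsmul (iotaHom hR) n b
  have h1 : (iotaHom hR (n • b) : ZMod m) = iota R (n • b) := rfl
  have h2 : (iotaHom hR b : ZMod m) = iota R b := rfl
  rw [h1, h2, nsmul_eq_mul, nsmul_eq_mul] at h
  exact h.symm

/-- `Q` -/
def QQ (n : ℕ) : ℕ := (16 * n + 2).factorial

/-- `F` -/
def FF (n : ℕ) : ℕ := (6 * (8 * n)).factorial

/-- the functional of a unit -/
theorem core {n : ℕ} (hn : 0 < n) {R d : ℕ} [NeZero d] (hR : R * d = m) (hd : d % 4 ≠ 2)
    (g : (ZMod d)ˣ) : ∃ φ : ZMod m → ℚ, OddDist φ ∧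
      (∀ u : (ZMod d)ˣ, φ (iota R ((g * u : (ZMod d)ˣ) : ZMod d)) = Wd d u - Wd d (-u)) ∧
      ∀ z, |φ z| ≤ 1 / (4 * n) ∨ ∃ r e : ℕ, 0 < r ∧ r ≤ FF n ∧ 0 < e ∧ e ≤ FF n ∧
        (((QQ n * r : ℕ) : ZMod m) * z = ((QQ n * e : ℕ) : ZMod m) * iota R (g : ZMod d) ∨
          ((QQ n * r : ℕ) : ZMod m) * z = -(((QQ n * e : ℕ) : ZMod m) * iota R (g : ZMod d))) := by
  set b : (ZMod d)ˣ → ℚ := fun u => Wd d (g⁻¹ * u) - Wd d (-(g⁻¹ * u)) with hb
  obtain ⟨φ, h1, h2, h3⟩ := functional hR (b := b) (fun u => by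
    simp only [hb]
    rw [mul_neg, neg_neg]; ring) (fun ℓ hℓ hℓd u => by
    simp only [hb]
    rw [sum_sub_distrib]
    have e1 : ∀ κ ∈ KF (KL d ℓ), Wd d (g⁻¹ * (u * κ)) = Wd d (g⁻¹ * u * κ) := fun κ _ => by
      rw [mul_assoc]
    have e2 : ∀ κ ∈ KF (KL d ℓ), Wd d (-(g⁻¹ * (u * κ))) = Wd d (-(g⁻¹ * u) * κ) := fun κ _ => by
      rw [neg_mul, mul_assoc]
    rw [sum_congr rfl e1, sum_congr rfl e2, sum_Wd hd hℓ hℓd, sum_Wd hd hℓ hℓd, sub_zero])
  refine ⟨φ, h1, fun u => ?_, fun z => ?_⟩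
  · rw [h2]
    simp only [hb]
    rw [inv_mul_cancel_left]
  · have hn' : (0 : ℚ) < n := by exact_mod_cast hn
    by_cases hz : φ z = 0
    · left
      rw [hz, abs_zero]
      positivity
    · obtain ⟨r, e, c, h4, h5, h6, h7, h8⟩ := h3 z hz
      have hr : 0 < r := by
        rcases Nat.eq_zero_or_pos r with h0 | h0
        · exfalso
          have := addOrderOf_pos z
          rw [h4, h0, mul_zero] at this
          omega
        · exact h0
      have he : 0 < e := Nat.pos_of_dvd_of_pos h6 hr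
      have hbc : |b c| ≤ 2 := by
        have k1 := abs_Wd hd (g⁻¹ * c)
        have k2 := abs_Wd hd (-(g⁻¹ * c))
        calc |b c| ≤ |Wd d (g⁻¹ * c)| + |Wd d (-(g⁻¹ * c))| := abs_sub _ _
          _ ≤ 2 := by linarith
      by_cases hK : 1 < ((8 * n : ℕ) : ℚ) * beta r
      · have hrF : r ∣ FF n := dvd_of_beta hr hK
        have hrle : r ≤ FF n := Nat.le_of_dvd (Nat.factorial_pos _) hrF
        have hele : e ≤ FF n := (Nat.le_of_dvd hr h6).trans hrle
        have hkey : |b c| ≤ 2 / (16 * n : ℕ) ∨ g⁻¹ * c ∈ KL d (QQ n) ∨ -(g⁻¹ * c) ∈ KL d (QQ n) := by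
          have k1 := Wd_small hd (Λ := 16 * n) (by omega) (g⁻¹ * c)
          have k2 := Wd_small hd (Λ := 16 * n) (by omega) (-(g⁻¹ * c))
          rcases k1 with k1 | k1
          · rcases k2 with k2 | k2
            · left
              calc |b c| ≤ |Wd d (g⁻¹ * c)| + |Wd d (-(g⁻¹ * c))| := abs_sub _ _
                _ ≤ 1 / (16 * n : ℕ) + 1 / (16 * n : ℕ) := add_le_add k1 k2
                _ = 2 / (16 * n : ℕ) := by ring
            · exact Or.inr (Or.inr k2)
          · exact Or.inr (Or.inl k1)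
        rcases hkey with hk | hk | hk
        · left
          calc |φ z| ≤ beta r * |b c| := h8
            _ ≤ 2 * (2 / (16 * n : ℕ)) :=
              mul_le_mul (beta_le_two hr) hk (abs_nonneg _) (by norm_num)
            _ = 1 / (4 * n) := by push_cast; field_simp; ring
        · right
          refine ⟨r, e, hr, hrle, he, hele, Or.inl ?_⟩
          rw [mem_KL] at hk
          have h9 : ((QQ n : ℕ) : ZMod d) * (c : ZMod d) = ((QQ n : ℕ) : ZMod d) * (g : ZMod d) := by
            have := congrArg (fun x => x * (g : ZMod d)) hk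
            simp only [Units.val_mul] at this
            rw [← this]
            have h10 : ((g⁻¹ : (ZMod d)ˣ) : ZMod d) * (g : ZMod d) = 1 := Units.inv_mul g
            linear_combination (-((QQ n : ℕ) : ZMod d) * (c : ZMod d)) * h10
          have h10 : ((QQ n : ℕ) : ZMod m) * iota R (c : ZMod d) =
              ((QQ n : ℕ) : ZMod m) * iota R (g : ZMod d) := by
            rw [nat_mul_iota hR, nat_mul_iota hR, h9]
          push_cast
          linear_combination ((QQ n : ℕ) : ZMod m) * h5 + (e : ZMod m) * h10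
        · right
          refine ⟨r, e, hr, hrle, he, hele, Or.inr ?_⟩
          rw [mem_KL] at hk
          have h9 : ((QQ n : ℕ) : ZMod d) * (c : ZMod d) =
              -(((QQ n : ℕ) : ZMod d) * (g : ZMod d)) := by
            have := congrArg (fun x => x * (g : ZMod d)) hk
            simp only [Units.val_neg, Units.val_mul] at this
            rw [← this]
            have h10 : ((g⁻¹ : (ZMod d)ˣ) : ZMod d) * (g : ZMod d) = 1 := Units.inv_mul g
            linear_combination (-((QQ n : ℕ) : ZMod d) * (c : ZMod d)) * h10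
          have h10 : ((QQ n : ℕ) : ZMod m) * iota R (c : ZMod d) =
              -(((QQ n : ℕ) : ZMod m) * iota R (g : ZMod d)) := by
            rw [nat_mul_iota hR, h9, iota_neg hR, nat_mul_iota hR]
          push_cast
          linear_combination ((QQ n : ℕ) : ZMod m) * h5 + (e : ZMod m) * h10
      · left
        push Not at hK
        have h9 : beta r ≤ 1 / (8 * n) := by
          rw [le_div_iff₀ (by positivity)]
          push_cast at hK
          linarith
        calc |φ z| ≤ beta r * |b c| := h8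
          _ ≤ 1 / (8 * n) * 2 := mul_le_mul h9 hbc (abs_nonneg _) (by positivity)
          _ = 1 / (4 * n) := by field_simp; norm_num

/-- the level of an element -/
theorem start (a : ZMod m) : ∃ R d : ℕ, ∃ _ : NeZero d, ∃ g : (ZMod d)ˣ, R * d = m ∧ d % 4 ≠ 2 ∧
    (2 : ZMod m) * iota R (g : ZMod d) = 2 * a ∧
    ∀ φ : ZMod m → ℚ, OddDist φ →
      (∀ u : (ZMod d)ˣ, φ (iota R ((g * u : (ZMod d)ˣ) : ZMod d)) = Wd d u - Wd d (-u)) →
      ∀ n : ℕ, 0 < n → |φ a| < 1 / 4 → addOrderOf a ∣ 12 * QQ n := by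
  have hD : addOrderOf a ∣ m := by
    have := addOrderOf_dvd_card (x := a)
    rwa [ZMod.card] at this
  have hDpos := addOrderOf_pos a
  by_cases h4 : addOrderOf a % 4 = 2
  · -- order two modulo four
    obtain ⟨d, hd⟩ : ∃ d, addOrderOf a = 2 * d := ⟨addOrderOf a / 2, by omega⟩
    have hdodd : d % 2 = 1 := by omega
    have hdpos : 0 < d := by omega
    have hdne : NeZero d := ⟨hdpos.ne'⟩
    have h2m : 2 ∣ m := (Dvd.intro d hd.symm).trans hD
    obtain ⟨R, hR⟩ : ∃ R, R * d = m := by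
      obtain ⟨R, hR⟩ := (Dvd.intro_left 2 hd.symm).trans hD
      exact ⟨R, by rw [hR, mul_comm]⟩
    have hhalf : 2 * (m / 2) = m := Nat.mul_div_cancel' h2m
    have hda : (d : ZMod m) * a = ((m / 2 : ℕ) : ZMod m) := by
      have h1 : ((2 : ℕ) : ZMod m) * ((d : ZMod m) * a) = 0 := by
        have := addOrderOf_nsmul_eq_zero a
        rw [nsmul_eq_mul, hd] at this
        push_cast at this ⊢
        linear_combination this
      obtain ⟨j, hj, hj'⟩ := exists_mul_of_killed hhalf h1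
      have hj0 : j ≠ 0 := by
        rintro rfl
        rw [Nat.cast_zero, zero_mul] at hj'
        have h3 : addOrderOf a ∣ d := by
          rw [addOrderOf_dvd_iff_nsmul_eq_zero, nsmul_eq_mul]; exact hj'
        rw [hd] at h3
        have := Nat.le_of_dvd hdpos h3
        omega
      have hj1 : j = 1 := by omega
      rw [hj', hj1, Nat.cast_one, one_mul]
    set a' : ZMod m := ((d + 1 : ℕ) : ZMod m) * a with ha'
    have ha'eq : a' = a + ((m / 2 : ℕ) : ZMod m) := by
      rw [ha', ← hda]; push_cast; ring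
    have hord : addOrderOf a' = d := by
      rw [ha', ← nsmul_eq_mul, addOrderOf_nsmul' _ (by omega), hd]
      have hg : Nat.gcd (2 * d) (d + 1) = 2 := by
        have h1 : Nat.Coprime d (d + 1) := by
          rw [Nat.coprime_self_add_right]; exact Nat.coprime_one_right d
        rw [Nat.gcd_comm, Nat.gcd_comm, Nat.Coprime.gcd_mul_right_cancel 2 h1]
        obtain ⟨k, hk⟩ : ∃ k, d + 1 = 2 * k := ⟨(d + 1) / 2, by omega⟩
        rw [hk]
        simp
      rw [hg, Nat.mul_div_cancel_left _ (by norm_num)]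
    obtain ⟨g, hg⟩ := exists_unit hR hord
    have h2half : (2 : ZMod m) * ((m / 2 : ℕ) : ZMod m) = 0 := by
      have : ((2 * (m / 2) : ℕ) : ZMod m) = 0 := by rw [hhalf]; simp
      push_cast at this
      exact this
    have h2a : (2 : ZMod m) * a' = 2 * a := by
      rw [ha'eq]; linear_combination h2half
    refine ⟨R, d, hdne, g, hR, by omega, by rw [hg, h2a], fun φ hφ hval n hn hsm => ?_⟩
    have hc2 : Nat.Coprime 2 d := Nat.coprime_two_left.mpr (Nat.odd_iff.mpr hdodd)
    have hdist := hφ.dist 2 (m / 2) Nat.prime_two hhalf a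
    rw [sum_range_succ, sum_range_one] at hdist
    have e0 : a + ((0 : ℕ) : ZMod m) * ((m / 2 : ℕ) : ZMod m) = a := by simp
    have e1 : a + ((1 : ℕ) : ZMod m) * ((m / 2 : ℕ) : ZMod m) = a' := by rw [ha'eq]; simp
    have e2 : ((2 : ℕ) : ZMod m) * a =
        iota R ((g * ZMod.unitOfCoprime 2 hc2 : (ZMod d)ˣ) : ZMod d) := by
      rw [Units.val_mul, ZMod.coe_unitOfCoprime, mul_comm (g : ZMod d), ← nat_mul_iota hR, hg]
      push_cast
      exact h2a.symm
    have e3 : a' = iota R ((g * 1 : (ZMod d)ˣ) : ZMod d) := by rw [mul_one, hg]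
    rw [e0, e1, e2, e3, hval, hval, Wd_one] at hdist
    have hd4 : d % 4 ≠ 2 := by omega
    have hn' : (1 : ℚ) ≤ n := by exact_mod_cast hn
    have hsmall : ∀ x : ℚ, |x| ≤ 1 / (16 * n : ℕ) → |x| ≤ 1 / 16 := by
      intro x hx
      refine hx.trans ?_
      push_cast
      rw [div_le_div_iff₀ (by linarith) (by norm_num)]
      linarith
    have hdvd : ∀ c : ℕ, 0 < c → c ∣ 6 → ((c * QQ n : ℕ) : ZMod d) = 0 → addOrderOf a ∣ 12 * QQ n := by
      intro c _ hc h
      rw [ZMod.natCast_eq_zero_iff] at h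
      rw [hd]
      have h5 : d ∣ 6 * QQ n := h.trans (Nat.mul_dvd_mul_right hc _)
      have : 12 * QQ n = 2 * (6 * QQ n) := by ring
      rw [this]
      exact Nat.mul_dvd_mul_left 2 h5
    rcases Wd_small hd4 (Λ := 16 * n) (by omega) (ZMod.unitOfCoprime 2 hc2) with k1 | k1
    · rcases Wd_small hd4 (Λ := 16 * n) (by omega) (-ZMod.unitOfCoprime 2 hc2) with k2 | k2
      · rcases Wd_small hd4 (Λ := 16 * n) (by omega) (-1 : (ZMod d)ˣ) with k3 | k3
        · exfalso
          have k1' := abs_le.mp (hsmall _ k1)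
          have k2' := abs_le.mp (hsmall _ k2)
          have k3' := abs_le.mp (hsmall _ k3)
          have k4 := abs_lt.mp hsm
          linarith [k1'.1, k1'.2, k2'.1, k2'.2, k3'.1, k3'.2, k4.1, k4.2]
        · refine hdvd 2 (by norm_num) (by norm_num) ?_
          rw [mem_KL, Units.val_neg, Units.val_one] at k3
          push_cast
          have : ((QQ n : ℕ) : ZMod d) * -1 = ((QQ n : ℕ) : ZMod d) := k3
          linear_combination -this
      · refine hdvd 3 (by norm_num) (by norm_num) ?_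
        rw [mem_KL, Units.val_neg, ZMod.coe_unitOfCoprime] at k2
        have : ((QQ n : ℕ) : ZMod d) * -((2 : ℕ) : ZMod d) = ((QQ n : ℕ) : ZMod d) := k2
        push_cast at this ⊢
        linear_combination -this
    · refine hdvd 1 (by norm_num) (by norm_num) ?_
      rw [mem_KL, ZMod.coe_unitOfCoprime] at k1
      have : ((QQ n : ℕ) : ZMod d) * ((2 : ℕ) : ZMod d) = ((QQ n : ℕ) : ZMod d) := k1
      push_cast at this ⊢
      linear_combination this
  · -- the other orders
    obtain ⟨R, hR⟩ : ∃ R, R * addOrderOf a = m := by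
      obtain ⟨R, hR⟩ := hD
      exact ⟨R, by rw [mul_comm]; exact hR.symm⟩
    have hdne : NeZero (addOrderOf a) := ⟨hDpos.ne'⟩
    obtain ⟨g, hg⟩ := exists_unit hR rfl
    refine ⟨R, addOrderOf a, hdne, g, hR, h4, by rw [hg], fun φ hφ hval n hn hsm => ?_⟩
    have e3 : a = iota R ((g * 1 : (ZMod (addOrderOf a))ˣ) : ZMod (addOrderOf a)) := by
      rw [mul_one, hg]
    have hv : φ a = 1 - Wd (addOrderOf a) (-1) := by
      conv_lhs => rw [e3]
      rw [hval, Wd_one]
    have hn' : (1 : ℚ) ≤ n := by exact_mod_cast hn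
    rcases Wd_small h4 (Λ := 16 * n) (by omega) (-1 : (ZMod (addOrderOf a))ˣ) with k3 | k3
    · exfalso
      have k3' : |Wd (addOrderOf a) (-1)| ≤ 1 / 16 := by
        refine k3.trans ?_
        push_cast
        rw [div_le_div_iff₀ (by linarith) (by norm_num)]
        linarith
      rw [hv] at hsm
      have k4 := abs_lt.mp hsm
      have k5 := abs_le.mp k3'
      linarith [k4.1, k4.2, k5.1, k5.2]
    · rw [mem_KL, Units.val_neg, Units.val_one] at k3
      have h5 : ((2 * QQ n : ℕ) : ZMod (addOrderOf a)) = 0 := by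
        have : ((QQ n : ℕ) : ZMod (addOrderOf a)) * -1 = ((QQ n : ℕ) : ZMod (addOrderOf a)) := k3
        push_cast
        linear_combination -this
      rw [ZMod.natCast_eq_zero_iff] at h5
      exact h5.trans ⟨6, by ring⟩

/-- the bound for the coefficients -/
def HH (n : ℕ) : ℕ := 2 * (QQ n * FF n)

/-- **Partners.** -/
theorem partner {n : ℕ} (hn : 0 < n) {ι : Type*} (J : Finset ι) (hJ : J.card ≤ n)
    (s : ι → ZMod m) (hrel : ∀ φ : ZMod m → ℚ, OddDist φ → ∑ i ∈ J, φ (s i) = 0) {i : ι}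
    (hi : i ∈ J) : addOrderOf (s i) ∣ 12 * QQ n ∨ ∃ j ∈ J, j ≠ i ∧ ∃ x y : ℕ, 0 < x ∧ x ≤ HH n ∧
      0 < y ∧ y ≤ HH n ∧ ((x : ZMod m) * s j = (y : ZMod m) * s i ∨
        (x : ZMod m) * s j = -((y : ZMod m) * s i)) := by
  classical
  by_contra hcon
  push Not at hcon
  obtain ⟨hcon1, hcon2⟩ := hcon
  obtain ⟨R, d, hdne, g, hR, hd4, h2a, hst⟩ := start (s i)
  obtain ⟨φ, hφ, hval, hz⟩ := core hn hR hd4 g
  apply hcon1
  refine hst φ hφ hval n hn ?_
  have h1 := hrel φ hφ
  rw [← add_sum_erase J _ hi] at h1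
  have h2 : |φ (s i)| ≤ ∑ j ∈ J.erase i, |φ (s j)| := by
    have : φ (s i) = -∑ j ∈ J.erase i, φ (s j) := by linarith
    rw [this, abs_neg]
    exact abs_sum_le_sum_abs _ _
  have hn' : (0 : ℚ) < n := by exact_mod_cast hn
  have h3 : ∀ j ∈ J.erase i, |φ (s j)| ≤ 1 / (4 * n) := by
    intro j hj
    obtain ⟨hji, hjJ⟩ := mem_erase.mp hj
    rcases hz (s j) with h | ⟨r, e, hr, hrF, he, heF, h⟩
    · exact h
    · exfalso
      have hQ : 0 < QQ n := Nat.factorial_pos _
      have hle : ∀ t, t ≤ FF n → 2 * (QQ n * t) ≤ HH n := fun t ht =>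
        Nat.mul_le_mul_left 2 (Nat.mul_le_mul_left _ ht)
      obtain ⟨hc1, hc2⟩ := hcon2 j hjJ hji (2 * (QQ n * r)) (2 * (QQ n * e))
        (by positivity) (hle r hrF) (by positivity) (hle e heF)
      rcases h with h | h
      · apply hc1
        push_cast at h ⊢
        linear_combination 2 * h + ((QQ n : ℕ) : ZMod m) * (e : ZMod m) * h2a
      · apply hc2
        push_cast at h ⊢
        linear_combination 2 * h - ((QQ n : ℕ) : ZMod m) * (e : ZMod m) * h2a
  have h4 : ∑ j ∈ J.erase i, |φ (s j)| ≤ (J.erase i).card * (1 / (4 * n)) := by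
    rw [← nsmul_eq_mul]
    exact sum_le_card_nsmul _ _ _ h3
  have h5 : ((J.erase i).card : ℚ) < n := by
    have h6 := card_erase_of_mem hi
    have h7 : 0 < J.card := card_pos.mpr ⟨i, hi⟩
    have : (J.erase i).card < n := by omega
    exact_mod_cast this
  calc |φ (s i)| ≤ (J.erase i).card * (1 / (4 * n)) := h2.trans h4
    _ < n * (1 / (4 * n)) := mul_lt_mul_of_pos_right h5 (by positivity)
    _ = 1 / 4 := by field_simp

end Core

end Pool.Agent.Q59.DT
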