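import Pool.Agent.Q59.DT.Ext

/-!
# Extension of odd distributions from one order with control of the values: all steps
-/

namespace Pool.Agent.Q59.DT

open Finset Pool.Agent.H916R2 Pool.Agent.Q59.FS
open Pool.Agent.Q59.DN (ext_dvd_val)

section Reach

variable {m : ℕ} [NeZero m]

/-- the values of `φ` are controlled by those of `φ0` in the order `d` -/
def Inv (d : ℕ) (φ0 φ : ZMod m → ℚ) : Prop :=
  ∀ a, φ a ≠ 0 → ∃ r e : ℕ, ∃ c : ZMod m, addOrderOf a = d * r ∧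
    (r : ZMod m) * a = (e : ZMod m) * c ∧ e ∣ r ∧ φ0 c ≠ 0 ∧ |φ a| ≤ beta r * |φ0 c|

omit [NeZero m] in
lemma order_mul_prime {M ℓ : ℕ} (hℓ : ℓ.Prime) {a : ZMod m} (h1 : ¬ (M : ZMod m) * a = 0)
    (h2 : ((M * ℓ : ℕ) : ZMod m) * a = 0) : ℓ ∣ addOrderOf a := by
  by_contra h
  apply h1
  have h3 : addOrderOf a ∣ M * ℓ := by
    rw [addOrderOf_dvd_iff_nsmul_eq_zero, nsmul_eq_mul]; exact h2
  have h4 : (addOrderOf a).Coprime ℓ :=
    Nat.coprime_comm.mp ((Nat.Prime.coprime_iff_not_dvd hℓ).mpr h)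
  have h5 := h4.dvd_of_dvd_mul_right h3
  rw [addOrderOf_dvd_iff_nsmul_eq_zero, nsmul_eq_mul] at h5
  exact h5

variable {M d : ℕ} {φ0 φ : ZMod m → ℚ}

lemma step_dvd (h : PD M d φ) (hI : Inv d φ0 φ) {ℓ : ℕ} (hℓ : ℓ.Prime) (hdvd : ℓ ∣ M) :
    ∃ φ' : ZMod m → ℚ, PD (M * ℓ) d φ' ∧ Inv d φ0 φ' ∧
      ∀ a, (M : ZMod m) * a = 0 → φ' a = φ a := by
  obtain ⟨φ', h1, h2, h3⟩ := ext_dvd_val h hℓ hdvd
  refine ⟨φ', h1, fun a ha => ?_, h2⟩
  by_cases hM : (M : ZMod m) * a = 0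
  · rw [h2 a hM] at ha ⊢
    exact hI a ha
  · have hMℓ := h1.supp a ha
    have hv := h3 a hM hMℓ
    rw [hv] at ha
    have hne : φ ((ℓ : ZMod m) * a) ≠ 0 := fun h0 => ha (by rw [h0, zero_div])
    obtain ⟨r, e, c, h4, h5, h6, h7, h8⟩ := hI _ hne
    have hord := order_mul_prime hℓ hM hMℓ
    have h9 : addOrderOf ((ℓ : ZMod m) * a) = addOrderOf a / ℓ := by
      rw [← nsmul_eq_mul, addOrderOf_nsmul' _ hℓ.ne_zero, Nat.gcd_eq_right hord]
    have hr : 0 < r := by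
      rcases Nat.eq_zero_or_pos r with h0 | h0
      · exfalso
        have := addOrderOf_pos ((ℓ : ZMod m) * a)
        rw [h4, h0, mul_zero] at this
        omega
      · exact h0
    have h10 : addOrderOf a = d * (r * ℓ) := by
      rw [h9] at h4
      rw [← mul_assoc, ← h4, Nat.div_mul_cancel hord]
    refine ⟨r * ℓ, e, c, h10, ?_, h6.mul_right _, h7, ?_⟩
    · push_cast
      rw [mul_assoc]
      exact h5
    · rw [hv, abs_div, Nat.abs_cast]
      have hℓ0 : (0 : ℚ) < ℓ := by exact_mod_cast hℓ.pos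
      calc |φ ((ℓ : ZMod m) * a)| / ℓ ≤ beta r * |φ0 c| / ℓ := div_le_div_of_nonneg_right h8 hℓ0.le
        _ = beta r / ℓ * |φ0 c| := by ring
        _ ≤ beta (r * ℓ) * |φ0 c| :=
          mul_le_mul_of_nonneg_right (beta_ge hℓ hr) (abs_nonneg _)

lemma step_not_dvd (h : PD M d φ) (hI : Inv d φ0 φ) {ℓ : ℕ} (hℓ : ℓ.Prime) (hdvd : ¬ ℓ ∣ M) :
    ∃ φ' : ZMod m → ℚ, PD (M * ℓ) d φ' ∧ Inv d φ0 φ' ∧
      ∀ a, (M : ZMod m) * a = 0 → φ' a = φ a := by
  obtain ⟨e0, he0, hmul, φ', h1, h2, h3⟩ := ext_not_dvd_val h hℓ hdvd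
  refine ⟨φ', h1, fun a ha => ?_, h2⟩
  by_cases hM : (M : ZMod m) * a = 0
  · rw [h2 a hM] at ha ⊢
    exact hI a ha
  · have hMℓ := h1.supp a ha
    have hv := h3 a hM hMℓ
    have hord := order_mul_prime hℓ hM hMℓ
    have hMℓa : (M : ZMod m) * ((ℓ : ZMod m) * a) = 0 := by
      have := hMℓ
      push_cast at this
      linear_combination this
    set b := (e0 : ZMod m) * a with hb
    have hMb : (M : ZMod m) * b = 0 := by
      obtain ⟨k, hk⟩ := he0
      rw [hb, hk]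
      push_cast
      linear_combination (k : ZMod m) * hMℓa
    have hℓb : (ℓ : ZMod m) * b = (ℓ : ZMod m) * a := by
      have := hmul _ hMℓa
      rw [hb]
      linear_combination this
    have hbM : addOrderOf b ∣ M := by
      rw [addOrderOf_dvd_iff_nsmul_eq_zero, nsmul_eq_mul]; exact hMb
    have hℓob : ¬ ℓ ∣ addOrderOf b := fun h0 => hdvd (h0.trans hbM)
    have hcop : (addOrderOf b).Coprime ℓ :=
      Nat.coprime_comm.mp ((Nat.Prime.coprime_iff_not_dvd hℓ).mpr hℓob)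
    have hoa : addOrderOf a = addOrderOf b * ℓ := by
      apply Nat.dvd_antisymm
      · rw [addOrderOf_dvd_iff_nsmul_eq_zero, nsmul_eq_mul]
        have := addOrderOf_nsmul_eq_zero b
        rw [nsmul_eq_mul] at this
        push_cast
        linear_combination (ℓ : ZMod m) * this - ((addOrderOf b : ℕ) : ZMod m) * hℓb
      · exact hcop.mul_dvd_of_dvd_of_dvd (order_mul_dvd e0 a) hord
    have hoℓb : addOrderOf ((ℓ : ZMod m) * b) = addOrderOf b := by
      rw [← nsmul_eq_mul, addOrderOf_nsmul' _ hℓ.ne_zero, hcop.gcd_eq_one, Nat.div_one]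
    have hℓ1 : (0 : ℚ) < (ℓ : ℚ) - 1 := by
      have : (1 : ℚ) < ℓ := by exact_mod_cast hℓ.one_lt
      linarith
    -- the estimate
    have key : ∀ z : ZMod m, φ z ≠ 0 → addOrderOf z = addOrderOf b →
        |φ' a| ≤ 2 * |φ z| / ((ℓ : ℚ) - 1) → (∃ f : ℕ, f ∣ ℓ ∧ (ℓ : ZMod m) * a = (f : ZMod m) * z) →
        ∃ r e : ℕ, ∃ c : ZMod m, addOrderOf a = d * r ∧
          (r : ZMod m) * a = (e : ZMod m) * c ∧ e ∣ r ∧ φ0 c ≠ 0 ∧ |φ' a| ≤ beta r * |φ0 c| := by
      rintro z hz hoz hle ⟨f, hf, hfz⟩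
      obtain ⟨r, e, c, h4, h5, h6, h7, h8⟩ := hI z hz
      have hr : 0 < r := by
        rcases Nat.eq_zero_or_pos r with h0 | h0
        · exfalso
          have := addOrderOf_pos z
          rw [h4, h0, mul_zero] at this
          omega
        · exact h0
      have hℓr : ¬ ℓ ∣ r := by
        intro h0
        apply hℓob
        rw [← hoz, h4]
        exact h0.mul_left _
      refine ⟨r * ℓ, f * e, c, ?_, ?_, ?_, h7, ?_⟩
      · rw [hoa, ← hoz, h4]; ring
      · push_cast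
        linear_combination (r : ZMod m) * hfz + (f : ZMod m) * h5
      · rw [mul_comm r ℓ]
        exact mul_dvd_mul hf h6
      · rw [beta_mul_not_dvd hℓ hℓr hr]
        refine hle.trans ?_
        rw [div_mul_eq_mul_div]
        apply div_le_div_of_nonneg_right _ hℓ1.le
        rw [mul_assoc]
        exact mul_le_mul_of_nonneg_left h8 (by norm_num)
    have habs : |φ' a| ≤ (|φ ((ℓ : ZMod m) * b)| + |φ b|) / ((ℓ : ℚ) - 1) := by
      rw [hv, abs_div, abs_of_pos hℓ1]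
      exact div_le_div_of_nonneg_right (abs_sub _ _) hℓ1.le
    rcases le_total |φ b| |φ ((ℓ : ZMod m) * b)| with hle | hle
    · refine key ((ℓ : ZMod m) * b) ?_ hoℓb ?_ ⟨1, one_dvd _, ?_⟩
      · intro h0
        rw [h0, abs_zero] at hle habs
        have h4 : |φ b| = 0 := le_antisymm hle (abs_nonneg _)
        rw [h4, add_zero, zero_div] at habs
        exact ha (abs_nonpos_iff.mp habs)
      · refine habs.trans (div_le_div_of_nonneg_right ?_ hℓ1.le)
        linarith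
      · rw [Nat.cast_one, one_mul, hℓb]
    · refine key b ?_ rfl ?_ ⟨ℓ, dvd_rfl, hℓb.symm⟩
      · intro h0
        rw [h0, abs_zero] at hle habs
        have h4 : |φ ((ℓ : ZMod m) * b)| = 0 := le_antisymm hle (abs_nonneg _)
        rw [h4, add_zero, zero_div] at habs
        exact ha (abs_nonpos_iff.mp habs)
      · refine habs.trans (div_le_div_of_nonneg_right ?_ hℓ1.le)
        linarith

/-- **Extension with control of the values.** -/
theorem extend_reach {M : ℕ} (hM : M ∣ m) : ∀ {φ : ZMod m → ℚ}, PD M d φ → Inv d φ0 φ →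
    ∃ φ' : ZMod m → ℚ, PD m d φ' ∧ Inv d φ0 φ' ∧ ∀ a, (M : ZMod m) * a = 0 → φ' a = φ a := by
  obtain ⟨k, hk⟩ := hM
  induction k using Nat.strong_induction_on generalizing M with
  | _ k ih =>
    intro φ h hI
    by_cases h1 : k = 1
    · subst h1
      rw [mul_one] at hk
      subst hk
      exact ⟨φ, h, hI, fun _ _ => rfl⟩
    · have hk0 : k ≠ 0 := by rintro rfl; rw [mul_zero] at hk; exact NeZero.ne m hk
      obtain ⟨ℓ, hℓ, k', hk'⟩ := Nat.exists_prime_and_dvd h1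
      have hstep : ∃ φ' : ZMod m → ℚ, PD (M * ℓ) d φ' ∧ Inv d φ0 φ' ∧
          ∀ a, (M : ZMod m) * a = 0 → φ' a = φ a := by
        by_cases h2 : ℓ ∣ M
        · exact step_dvd h hI hℓ h2
        · exact step_not_dvd h hI hℓ h2
      obtain ⟨φ1, hφ1, hI1, hφ1'⟩ := hstep
      have hk'0 : 0 < k' := Nat.pos_of_ne_zero (by rintro rfl; rw [mul_zero] at hk'; exact hk0 hk')
      obtain ⟨φ2, hφ2, hI2, hφ2'⟩ := ih k' (by
        rw [hk']; exact lt_mul_of_one_lt_left hk'0 hℓ.one_lt) (M := M * ℓ)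
        (by rw [hk, hk', mul_assoc]) hφ1 hI1
      refine ⟨φ2, hφ2, hI2, fun a ha => ?_⟩
      rw [hφ2' a (by push_cast; linear_combination (ℓ : ZMod m) * ha), hφ1' a ha]

end Reach

section Base

variable {m R d : ℕ} [NeZero m] [NeZero d]

/-- the base distribution -/
theorem base_rat (hR : R * d = m) {b : (ZMod d)ˣ → ℚ} (hodd : ∀ u, b (-u) = - b u)
    (hb : ∀ ℓ : ℕ, ℓ.Prime → ℓ ∣ d → ∀ u, ∑ κ ∈ KF (KL d ℓ), b (u * κ) = 0) :
    ∃ φ : ZMod m → ℚ, PD d d φ ∧ (∀ u : (ZMod d)ˣ, φ (iota R (u : ZMod d)) = b u) ∧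
      ∀ a, φ a ≠ 0 → ∃ u : (ZMod d)ˣ, (iota R (u : ZMod d) : ZMod m) = a := by
  classical
  set φ : ZMod m → ℚ := fun a =>
    if h : ∃ u : (ZMod d)ˣ, (iota R (u : ZMod d) : ZMod m) = a then b h.choose else 0 with hφ
  have v1 : ∀ u : (ZMod d)ˣ, φ (iota R (u : ZMod d)) = b u := by
    intro u
    have h : ∃ v : (ZMod d)ˣ, (iota R (v : ZMod d) : ZMod m) = iota R (u : ZMod d) := ⟨u, rfl⟩
    simp only [hφ]
    rw [dif_pos h]
    have h1 : h.choose = u := Units.ext (iota_inj hR h.choose_spec)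
    rw [h1]
  have v2 : ∀ a, φ a ≠ 0 → ∃ u : (ZMod d)ˣ, (iota R (u : ZMod d) : ZMod m) = a := by
    intro a ha
    by_contra hcon
    apply ha
    simp only [hφ]
    rw [dif_neg hcon]
  have v3 : ∀ a, φ a ≠ 0 → addOrderOf a = d := by
    intro a ha
    obtain ⟨u, rfl⟩ := v2 a ha
    exact addOrderOf_iota_unit hR u
  refine ⟨φ, ⟨?_, ?_, ?_, ?_⟩, v1, v2⟩
  · intro a
    by_cases h : ∃ u : (ZMod d)ˣ, (iota R (u : ZMod d) : ZMod m) = a
    · obtain ⟨u, rfl⟩ := h
      rw [← iota_neg hR, ← Units.val_neg, v1, v1, hodd]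
    · have h1 : φ a = 0 := by
        by_contra h0
        exact h (v2 a h0)
      have h2 : φ (-a) = 0 := by
        by_contra h0
        obtain ⟨u, hu⟩ := v2 _ h0
        apply h
        refine ⟨-u, ?_⟩
        rw [Units.val_neg, iota_neg hR, hu, neg_neg]
      rw [h1, h2, neg_zero]
  · intro a ha
    rw [← v3 a ha, ← nsmul_eq_mul, addOrderOf_nsmul_eq_zero]
  · intro a ha
    rw [v3 a ha]
  · intro p e hp hpe hpd a ha
    have hdpos : 0 < d := NeZero.pos d
    obtain ⟨d', hd'⟩ := hpd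
    have hd'0 : 0 < d' := Nat.pos_of_ne_zero (by rintro rfl; rw [mul_zero] at hd'; omega)
    have : NeZero d' := ⟨hd'0.ne'⟩
    have hrhs : φ ((p : ZMod m) * a) = 0 := by
      by_contra h0
      have h1 := v3 _ h0
      have h2 : addOrderOf ((p : ZMod m) * a) ∣ d' := by
        rw [addOrderOf_dvd_iff_nsmul_eq_zero, nsmul_eq_mul]
        have := ha
        rw [hd'] at this
        push_cast at this
        linear_combination this
      rw [h1] at h2
      have h3 := Nat.le_of_dvd hd'0 h2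
      have h4 : d' < d := by rw [hd']; exact lt_mul_of_one_lt_left hd'0 hp.one_lt
      omega
    rw [hrhs]
    by_cases hall : ∀ i ∈ range p, φ (a + (i : ZMod m) * (e : ZMod m)) = 0
    · exact sum_eq_zero hall
    · push Not at hall
      obtain ⟨i0, _, hi0⟩ := hall
      obtain ⟨u, hu⟩ := v2 _ hi0
      have he : e = R * d' := by
        have h1 : p * e = p * (R * d') := by rw [hpe, ← hR, hd']; ring
        exact Nat.eq_of_mul_eq_mul_left hp.pos h1
      rw [← coset_sum_shift_mul φ hpe a i0, ← hu, he]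
      rw [coset_decomp hR hp hd'.symm φ u]
      have h1 : ∑ κ ∈ KF (KK hd'.symm), φ (iota R ((u * κ : (ZMod d)ˣ) : ZMod d)) = 0 := by
        have h2 := hb p hp ⟨d', hd'⟩ u
        rw [KL_eq_KK hp.pos hd'.symm] at h2
        rw [← h2]
        exact sum_congr rfl fun κ _ => v1 _
      rw [h1, zero_add]
      split_ifs with hc
      · by_contra h0
        have h2 := v3 _ h0
        have hRp : R * p * d' = m := by rw [mul_assoc, ← hd', hR]
        rw [addOrderOf_iota_unit hRp] at h2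
        have h4 : d' < d := by rw [hd']; exact lt_mul_of_one_lt_left hd'0 hp.one_lt
        omega
      · rfl

/-- **Functionals from a function on the units modulo `d`.** -/
theorem functional (hR : R * d = m) {b : (ZMod d)ˣ → ℚ} (hodd : ∀ u, b (-u) = - b u)
    (hb : ∀ ℓ : ℕ, ℓ.Prime → ℓ ∣ d → ∀ u, ∑ κ ∈ KF (KL d ℓ), b (u * κ) = 0) :
    ∃ φ : ZMod m → ℚ, OddDist φ ∧ (∀ u : (ZMod d)ˣ, φ (iota R (u : ZMod d)) = b u) ∧
      ∀ a, φ a ≠ 0 → ∃ r e : ℕ, ∃ c : (ZMod d)ˣ, addOrderOf a = d * r ∧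
        (r : ZMod m) * a = (e : ZMod m) * iota R (c : ZMod d) ∧ e ∣ r ∧ b c ≠ 0 ∧
        |φ a| ≤ beta r * |b c| := by
  obtain ⟨φ0, h0, h1, h2⟩ := base_rat hR hodd hb
  have hI : Inv d φ0 φ0 := by
    intro a ha
    obtain ⟨u, rfl⟩ := h2 a ha
    refine ⟨1, 1, iota R (u : ZMod d), by rw [addOrderOf_iota_unit hR, mul_one], rfl, dvd_rfl, ha, ?_⟩
    unfold beta
    simp
  obtain ⟨φ, h3, h4, h5⟩ := extend_reach (Dvd.intro_left R hR) h0 hI
  refine ⟨φ, h3.oddDist, fun u => ?_, fun a ha => ?_⟩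
  · rw [h5, h1]
    have := addOrderOf_nsmul_eq_zero (iota R (u : ZMod d) : ZMod m)
    rwa [addOrderOf_iota_unit hR, nsmul_eq_mul] at this
  · obtain ⟨r, e, c, h6, h7, h8, h9, h10⟩ := h4 a ha
    obtain ⟨u, rfl⟩ := h2 c h9
    rw [h1] at h9 h10
    exact ⟨r, e, u, h6, h7, h8, h9, h10⟩

end Base

end Pool.Agent.Q59.DT
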